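import Mathlib

/-!
# The conformal map of the T-junction (module of the T-junction project, MP_35f495_pr)

`phi` maps the upper half plane conformally onto the T-junction
`{0 < re} ∖ ({a ≤ re, b ≤ im} ∪ {1 ≤ re, im ≤ 0})`;
`phi' = -(i/π) √(X-t) √(X-q) / (X (X-1))`, `t`, `q` the roots of `T² - (1-a²-b²) T = b²`.
-/

open Complex Set Filter Topology

namespace Pool.Agent.Helper15.J

noncomputable section

/-- open upper half plane -/
def UH : Set ℂ := {z | 0 < z.im}

/-- the T-junction: upper leg of width `a`, lower leg of width `1`, right leg of width `b` -/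
def junction (a b : ℝ) : Set ℂ := {w | 0 < w.re ∧ ¬ (a ≤ w.re ∧ b ≤ w.im) ∧ ¬ (1 ≤ w.re ∧ w.im ≤ 0)}

/-! ### the square root on the closed upper half plane -/

/-- square root, continuous everywhere, and a square root on the closed upper half plane -/
def sq (z : ℂ) : ℂ := ⟨Real.sqrt ((‖z‖ + z.re) / 2), Real.sqrt ((‖z‖ - z.re) / 2)⟩

theorem sq_re (z : ℂ) : (sq z).re = Real.sqrt ((‖z‖ + z.re) / 2) := rfl
theorem sq_im (z : ℂ) : (sq z).im = Real.sqrt ((‖z‖ - z.re) / 2) := rfl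
theorem sq_re_nonneg (z : ℂ) : 0 ≤ (sq z).re := Real.sqrt_nonneg _
theorem sq_im_nonneg (z : ℂ) : 0 ≤ (sq z).im := Real.sqrt_nonneg _

theorem continuous_sq : Continuous sq := by
  have h1 : sq = fun z : ℂ => ((Real.sqrt ((‖z‖ + z.re) / 2) : ℝ) : ℂ)
      + ((Real.sqrt ((‖z‖ - z.re) / 2) : ℝ) : ℂ) * I := by
    funext z
    apply Complex.ext <;> simp [sq]
  rw [h1]
  have e1 : Continuous fun z : ℂ => Real.sqrt ((‖z‖ + z.re) / 2) :=
    Real.continuous_sqrt.comp ((continuous_norm.add continuous_re).div_const _)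
  have e2 : Continuous fun z : ℂ => Real.sqrt ((‖z‖ - z.re) / 2) :=
    Real.continuous_sqrt.comp ((continuous_norm.sub continuous_re).div_const _)
  exact (continuous_ofReal.comp e1).add ((continuous_ofReal.comp e2).mul continuous_const)

theorem sq_mul_self {z : ℂ} (h : 0 ≤ z.im) : sq z * sq z = z := by
  have h1 : |z.re| ≤ ‖z‖ := abs_re_le_norm z
  have h2 := abs_le.1 h1
  have hA : 0 ≤ (‖z‖ + z.re) / 2 := by linarith
  have hB : 0 ≤ (‖z‖ - z.re) / 2 := by linarith
  apply Complex.ext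
  · rw [mul_re, sq_re, sq_im, Real.mul_self_sqrt hA, Real.mul_self_sqrt hB]
    ring
  · rw [mul_im, sq_re, sq_im, mul_comm (Real.sqrt ((‖z‖ - z.re) / 2)), ← Real.sqrt_mul hA]
    have h3 : (‖z‖ + z.re) / 2 * ((‖z‖ - z.re) / 2) = (z.im / 2) * (z.im / 2) := by
      have h4 : ‖z‖ * ‖z‖ = z.re * z.re + z.im * z.im := by
        rw [← normSq_apply, normSq_eq_norm_sq]; ring
      nlinarith
    rw [h3, Real.sqrt_mul_self (by linarith)]
    ring

theorem sq_re_pos {z : ℂ} (h : 0 < z.im) : 0 < (sq z).re := by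
  apply Real.sqrt_pos.2
  have h1 : |z.re| < ‖z‖ := abs_re_lt_norm.2 h.ne'
  have := abs_lt.1 h1
  linarith

theorem sq_im_pos {z : ℂ} (h : 0 < z.im) : 0 < (sq z).im := by
  apply Real.sqrt_pos.2
  have h1 : |z.re| < ‖z‖ := abs_re_lt_norm.2 h.ne'
  have := abs_lt.1 h1
  linarith

theorem sq_ne_zero {z : ℂ} (h : 0 < z.im) : sq z ≠ 0 := by
  intro h0
  have := sq_re_pos h
  rw [h0] at this
  simp at this

theorem hasStrictDerivAt_sq {z : ℂ} (h : 0 < z.im) : HasStrictDerivAt sq (2 * sq z)⁻¹ z := by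
  have h1 : HasStrictDerivAt (fun w : ℂ => w * w) (2 * sq z) (sq z) := by
    have h2 := (hasStrictDerivAt_id (sq z)).mul (hasStrictDerivAt_id (sq z))
    have h3 : (1 * id (sq z) + id (sq z) * 1 : ℂ) = 2 * sq z := by simp; ring
    rw [h3] at h2
    exact h2
  refine HasStrictDerivAt.of_local_left_inverse continuous_sq.continuousAt h1
    (mul_ne_zero two_ne_zero (sq_ne_zero h)) ?_
  have h4 : ∀ᶠ y : ℂ in 𝓝 z, 0 < y.im :=
    (isOpen_lt continuous_const continuous_im).mem_nhds h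
  filter_upwards [h4] with y hy
  exact sq_mul_self hy.le

theorem sq_ofReal_nonneg {x : ℝ} (h : 0 ≤ x) : sq (x : ℂ) = (Real.sqrt x : ℝ) := by
  apply Complex.ext
  · rw [sq_re, norm_real, Real.norm_eq_abs, abs_of_nonneg h, ofReal_re, ofReal_re]
    congr 1; ring
  · rw [sq_im, norm_real, Real.norm_eq_abs, abs_of_nonneg h, ofReal_re, ofReal_im]
    simp

theorem sq_ofReal_nonpos {x : ℝ} (h : x ≤ 0) : sq (x : ℂ) = (Real.sqrt (-x) : ℝ) * I := by
  apply Complex.ext
  · rw [sq_re, norm_real, Real.norm_eq_abs, abs_of_nonpos h, ofReal_re]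
    simp
  · rw [sq_im, norm_real, Real.norm_eq_abs, abs_of_nonpos h, ofReal_re, im_ofReal_mul, I_im, mul_one]
    congr 1; ring

/-! ### the parameters -/

/-- parameters of the T-junction: `t` and `q` are the roots of `T² - (1-a²-b²) T = b²` -/
structure Par (a b t q : ℝ) : Prop where
  a0 : 0 < a
  b0 : 0 < b
  t0 : 0 < t
  t1 : t < 1
  q0 : q < 0
  hb : t * q = -b ^ 2
  ha : (1 - t) * (1 - q) = a ^ 2

theorem par_of_root {a b t : ℝ} (ha : 0 < a) (hb : 0 < b) (h0 : 0 < t) (h1 : t < 1)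
    (h : t ^ 2 - (1 - a ^ 2 - b ^ 2) * t = b ^ 2) : Par a b t (-b ^ 2 / t) where
  a0 := ha
  b0 := hb
  t0 := h0
  t1 := h1
  q0 := by
    rw [neg_div]
    have : 0 < b ^ 2 / t := by positivity
    linarith
  hb := by field_simp
  ha := by
    field_simp
    nlinarith

section par
variable {a b t q : ℝ}

theorem Par.rho_pos (P : Par a b t q) : 0 < (1 - t) / a := div_pos (by linarith [P.t1]) P.a0
theorem Par.del_pos (P : Par a b t q) : 0 < b / t := div_pos P.b0 P.t0

theorem Par.rho_sq (P : Par a b t q) : ((1 - t) / a) ^ 2 * (1 - q) = 1 - t := by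
  have h := P.ha
  have ha := P.a0.ne'
  field_simp
  linear_combination (1 - t) * h

theorem Par.rho_lt_one (P : Par a b t q) : (1 - t) / a < 1 := by
  have h := P.rho_sq
  have h2 := P.rho_pos
  by_contra hcon
  push Not at hcon
  have h3 : 1 ≤ ((1 - t) / a) ^ 2 := by nlinarith
  have h4 : 1 - q ≤ ((1 - t) / a) ^ 2 * (1 - q) := by nlinarith [P.q0]
  linarith [P.q0, P.t0]

theorem Par.del_sq (P : Par a b t q) : (b / t) ^ 2 * t = - q := by
  have h := P.hb
  have ht := P.t0.ne'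
  field_simp
  nlinarith

/-! ### the three fractions -/

/-- `√(X-t)` -/
def u1 (t : ℝ) (z : ℂ) : ℂ := sq (z - t)

/-- `f1 = (√(X-q) + i δ √(X-t)) / (√(X-q) - i δ √(X-t))` -/
def f1 (d t q : ℝ) (z : ℂ) : ℂ := (u1 q z + I * d * u1 t z) / (u1 q z - I * d * u1 t z)

/-- `f2 = (√(X-t) - ρ √(X-q)) / (√(X-t) + ρ √(X-q))` -/
def f2 (r t q : ℝ) (z : ℂ) : ℂ := (u1 t z - r * u1 q z) / (u1 t z + r * u1 q z)

theorem u1_mul_self (t : ℝ) {z : ℂ} (h : 0 ≤ z.im) : u1 t z * u1 t z = z - t :=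
  sq_mul_self (by simpa using h)

theorem u1_re_nonneg (t : ℝ) (z : ℂ) : 0 ≤ (u1 t z).re := sq_re_nonneg _
theorem u1_im_nonneg (t : ℝ) (z : ℂ) : 0 ≤ (u1 t z).im := sq_im_nonneg _
theorem u1_re_pos (t : ℝ) {z : ℂ} (h : 0 < z.im) : 0 < (u1 t z).re := sq_re_pos (by simpa using h)
theorem u1_im_pos (t : ℝ) {z : ℂ} (h : 0 < z.im) : 0 < (u1 t z).im := sq_im_pos (by simpa using h)

theorem continuous_u1 (t : ℝ) : Continuous (u1 t) :=
  continuous_sq.comp (continuous_id.sub continuous_const)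

theorem u1_re_sub (t : ℝ) {z : ℂ} (h : 0 ≤ z.im) :
    (u1 t z).re * (u1 t z).re - (u1 t z).im * (u1 t z).im = z.re - t := by
  have := congrArg Complex.re (u1_mul_self t h)
  simpa using this

theorem u1_im_mul (t : ℝ) {z : ℂ} (h : 0 ≤ z.im) :
    2 * ((u1 t z).re * (u1 t z).im) = z.im := by
  have := congrArg Complex.im (u1_mul_self t h)
  simp at this
  linarith

/-- real part of `√(X-t) conj √(X-q)` -/
def AA (t q : ℝ) (z : ℂ) : ℝ := (u1 t z).re * (u1 q z).re + (u1 t z).im * (u1 q z).im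
/-- imaginary part of `√(X-t) conj √(X-q)` -/
def BB (t q : ℝ) (z : ℂ) : ℝ := (u1 t z).im * (u1 q z).re - (u1 t z).re * (u1 q z).im

theorem AA_nonneg (t q : ℝ) (z : ℂ) : 0 ≤ AA t q z :=
  add_nonneg (mul_nonneg (u1_re_nonneg _ _) (u1_re_nonneg _ _))
    (mul_nonneg (u1_im_nonneg _ _) (u1_im_nonneg _ _))

theorem AA_pos (t q : ℝ) {z : ℂ} (h : 0 < z.im) : 0 < AA t q z :=
  add_pos (mul_pos (u1_re_pos _ h) (u1_re_pos _ h)) (mul_pos (u1_im_pos _ h) (u1_im_pos _ h))

theorem AA_mul_BB (t q : ℝ) {z : ℂ} (h : 0 ≤ z.im) : 2 * (AA t q z * BB t q z) = z.im * (t - q) := by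
  have h1 := u1_re_sub t h
  have h2 := u1_im_mul t h
  have h3 := u1_re_sub q h
  have h4 := u1_im_mul q h
  have e : 2 * (AA t q z * BB t q z) =
      2 * ((u1 t z).re * (u1 t z).im)
          * ((u1 q z).re * (u1 q z).re - (u1 q z).im * (u1 q z).im)
        - ((u1 t z).re * (u1 t z).re - (u1 t z).im * (u1 t z).im)
          * (2 * ((u1 q z).re * (u1 q z).im)) := by
    rw [AA, BB]; ring
  rw [e, h1, h2, h3, h4]
  ring

theorem BB_pos {t q : ℝ} (htq : q < t) {z : ℂ} (h : 0 < z.im) : 0 < BB t q z := by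
  have h1 := AA_mul_BB t q h.le
  have h2 : 0 < z.im * (t - q) := mul_pos h (by linarith)
  rw [← h1] at h2
  have h3 : 0 < AA t q z * BB t q z := by linarith
  exact pos_of_mul_pos_right h3 (AA_nonneg _ _ _)

theorem continuous_BB (t q : ℝ) : Continuous (BB t q) := by
  have h1 := continuous_u1 t
  have h2 := continuous_u1 q
  exact ((continuous_im.comp h1).mul (continuous_re.comp h2)).sub
    ((continuous_re.comp h1).mul (continuous_im.comp h2))

theorem BB_nonneg {t q : ℝ} (htq : q < t) {z : ℂ} (h : 0 ≤ z.im) : 0 ≤ BB t q z := by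
  have h1 : z ∈ closure {z : ℂ | 0 < z.im} := by
    rw [closure_setOfPred_lt_im]; exact h
  have h2 : IsClosed {z : ℂ | 0 ≤ BB t q z} := isClosed_le continuous_const (continuous_BB t q)
  have h3 : closure {z : ℂ | 0 < z.im} ⊆ {z : ℂ | 0 ≤ BB t q z} :=
    closure_minimal (fun w hw => (BB_pos htq hw).le) h2
  exact h3 h1

theorem div_im_eq (x y : ℂ) : (x / y).im = (x.im * y.re - x.re * y.im) / normSq y := by
  rw [div_im]; ring

theorem f1_im (d t q : ℝ) (z : ℂ) :
    (f1 d t q z).im = 2 * d * AA t q z / normSq (u1 q z - I * d * u1 t z) := by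
  rw [f1, div_im_eq, AA]
  congr 1
  simp
  ring

theorem f2_im (r t q : ℝ) (z : ℂ) :
    (f2 r t q z).im = 2 * r * BB t q z / normSq (u1 t z + r * u1 q z) := by
  rw [f2, div_im_eq, BB]
  congr 1
  simp
  ring

theorem den1_ne {d t q : ℝ} (hd : 0 < d) (htq : q < t) {z : ℂ} (h : 0 ≤ z.im) :
    u1 q z - I * d * u1 t z ≠ 0 := by
  intro h0
  have h1 := congrArg Complex.re h0
  have h2 := congrArg Complex.im h0
  simp at h1 h2
  have k1 := u1_re_nonneg q z
  have k2 := u1_im_nonneg t z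
  have k3 : 0 ≤ d * (u1 t z).im := mul_nonneg hd.le k2
  have k4 : (u1 q z).re = 0 := by linarith
  have k5 : (u1 t z).im = 0 := by
    have : d * (u1 t z).im = 0 := by linarith
    rcases mul_eq_zero.1 this with h | h
    · exact absurd h hd.ne'
    · exact h
  have k6 := u1_re_sub t h
  have k7 := u1_re_sub q h
  rw [k5] at k6
  rw [k4] at k7
  nlinarith [mul_self_nonneg (u1 t z).re, mul_self_nonneg (u1 q z).im]

theorem den2_ne {r t q : ℝ} (hr : 0 < r) (htq : q < t) {z : ℂ} (h : 0 ≤ z.im) :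
    u1 t z + r * u1 q z ≠ 0 := by
  intro h0
  have h1 := congrArg Complex.re h0
  have h2 := congrArg Complex.im h0
  simp at h1 h2
  have k1 := u1_re_nonneg q z
  have k2 := u1_im_nonneg q z
  have k3 := u1_re_nonneg t z
  have k4 := u1_im_nonneg t z
  have k5 : 0 ≤ r * (u1 q z).re := mul_nonneg hr.le k1
  have k6 : 0 ≤ r * (u1 q z).im := mul_nonneg hr.le k2
  have m1 : (u1 t z).re = 0 := by linarith
  have m2 : (u1 t z).im = 0 := by linarith
  have m3 : (u1 q z).re = 0 := by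
    rcases mul_eq_zero.1 (by linarith : r * (u1 q z).re = 0) with h | h
    · exact absurd h hr.ne'
    · exact h
  have m4 : (u1 q z).im = 0 := by
    rcases mul_eq_zero.1 (by linarith : r * (u1 q z).im = 0) with h | h
    · exact absurd h hr.ne'
    · exact h
  have k7 := u1_re_sub t h
  have k8 := u1_re_sub q h
  rw [m1, m2] at k7
  rw [m3, m4] at k8
  linarith

theorem prod1 {d t q : ℝ} (hd : d ^ 2 * t = -q) {z : ℂ} (h : 0 ≤ z.im) :
    (u1 q z + I * d * u1 t z) * (u1 q z - I * d * u1 t z) = (1 + d ^ 2) * z := by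
  have h1 := u1_mul_self t h
  have h2 := u1_mul_self q h
  have h3 : (d : ℂ) ^ 2 * t = -q := by exact_mod_cast hd
  linear_combination h2 + (d : ℂ) ^ 2 * h1 - h3 - (d : ℂ) ^ 2 * (u1 t z) ^ 2 * (I_sq)

theorem prod2 {r t q : ℝ} (hr : r ^ 2 * (1 - q) = 1 - t) {z : ℂ} (h : 0 ≤ z.im) :
    (u1 t z - r * u1 q z) * (u1 t z + r * u1 q z) = (1 - r ^ 2) * (z - 1) := by
  have h1 := u1_mul_self t h
  have h2 := u1_mul_self q h
  have h3 : (r : ℂ) ^ 2 * (1 - q) = 1 - t := by exact_mod_cast hr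
  linear_combination h1 - (r : ℂ) ^ 2 * h2 - h3

theorem prod3 {t q : ℝ} {z : ℂ} (h : 0 ≤ z.im) :
    (u1 t z - u1 q z) * (u1 t z + u1 q z) = q - t := by
  have h1 := u1_mul_self t h
  have h2 := u1_mul_self q h
  linear_combination h1 - h2

theorem f1_ne {d t q : ℝ} (hd0 : 0 < d) (htq : q < t) (hd : d ^ 2 * t = -q) {z : ℂ} (h : 0 ≤ z.im)
    (hz : z ≠ 0) : f1 d t q z ≠ 0 := by
  apply div_ne_zero _ (den1_ne hd0 htq h)
  intro h0
  have h1 := prod1 hd h
  rw [h0, zero_mul] at h1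
  have h2 : (1 + (d : ℂ) ^ 2) ≠ 0 := by
    have : (1 + d ^ 2 : ℝ) ≠ 0 := by positivity
    exact_mod_cast this
  exact (mul_ne_zero h2 hz) h1.symm

theorem f2_ne {r t q : ℝ} (hr0 : 0 < r) (hr1 : r < 1) (htq : q < t) (hr : r ^ 2 * (1 - q) = 1 - t)
    {z : ℂ} (h : 0 ≤ z.im) (hz : z ≠ 1) : f2 r t q z ≠ 0 := by
  apply div_ne_zero _ (den2_ne hr0 htq h)
  intro h0
  have h1 := prod2 hr h
  rw [h0, zero_mul] at h1
  have h2 : (1 - (r : ℂ) ^ 2) ≠ 0 := by
    have : (1 - r ^ 2 : ℝ) ≠ 0 := by nlinarith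
    exact_mod_cast this
  exact (mul_ne_zero h2 (sub_ne_zero.2 hz)) h1.symm

theorem f3_ne {t q : ℝ} (htq : q < t) {z : ℂ} (h : 0 ≤ z.im) : f2 1 t q z ≠ 0 := by
  apply div_ne_zero _ (den2_ne one_pos htq h)
  intro h0
  have h1 := prod3 (t := t) (q := q) h
  rw [ofReal_one, one_mul] at h0
  rw [h0, zero_mul] at h1
  have : (q : ℂ) = t := by linear_combination -h1
  have h2 : q = t := by exact_mod_cast this
  linarith

theorem f1_im_nonneg {d t q : ℝ} (hd : 0 < d) (z : ℂ) : 0 ≤ (f1 d t q z).im := by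
  rw [f1_im]
  exact div_nonneg (mul_nonneg (by linarith) (AA_nonneg _ _ _)) (normSq_nonneg _)

theorem f2_im_nonneg {r t q : ℝ} (hr : 0 < r) (htq : q < t) {z : ℂ} (h : 0 ≤ z.im) :
    0 ≤ (f2 r t q z).im := by
  rw [f2_im]
  exact div_nonneg (mul_nonneg (by linarith) (BB_nonneg htq h)) (normSq_nonneg _)

theorem f1_im_pos {d t q : ℝ} (hd : 0 < d) (htq : q < t) {z : ℂ} (h : 0 < z.im) :
    0 < (f1 d t q z).im := by
  rw [f1_im]
  exact div_pos (mul_pos (by linarith) (AA_pos _ _ h)) (normSq_pos.2 (den1_ne hd htq h.le))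

theorem f2_im_pos {r t q : ℝ} (hr : 0 < r) (htq : q < t) {z : ℂ} (h : 0 < z.im) :
    0 < (f2 r t q z).im := by
  rw [f2_im]
  exact div_pos (mul_pos (by linarith) (BB_pos htq h)) (normSq_pos.2 (den2_ne hr htq h.le))

theorem normSq_num1 (d t q : ℝ) (z : ℂ) :
    normSq (u1 q z + I * d * u1 t z) = normSq (u1 q z - I * d * u1 t z) - 4 * d * BB t q z := by
  rw [normSq_apply, normSq_apply, BB]
  simp
  ring

theorem normSq_num2 (r t q : ℝ) (z : ℂ) :
    normSq (u1 t z - r * u1 q z) = normSq (u1 t z + r * u1 q z) - 4 * r * AA t q z := by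
  rw [normSq_apply, normSq_apply, AA]
  simp
  ring

theorem norm_div_lt_one {x y : ℂ} (h : normSq x < normSq y) : ‖x / y‖ < 1 := by
  have hy : 0 < normSq y := lt_of_le_of_lt (normSq_nonneg x) h
  have h1 : normSq (x / y) < 1 := by
    rw [normSq_div, div_lt_one hy]; exact h
  rw [normSq_eq_norm_sq] at h1
  nlinarith [norm_nonneg (x / y)]

theorem norm_f1_lt {d t q : ℝ} (hd : 0 < d) (htq : q < t) {z : ℂ} (h : 0 < z.im) :
    ‖f1 d t q z‖ < 1 := by
  apply norm_div_lt_one
  rw [normSq_num1]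
  have := mul_pos (mul_pos (by norm_num : (0 : ℝ) < 4) hd) (BB_pos htq h)
  linarith

theorem norm_f2_lt {r t q : ℝ} (hr : 0 < r) {z : ℂ} (h : 0 < z.im) :
    ‖f2 r t q z‖ < 1 := by
  apply norm_div_lt_one
  rw [normSq_num2]
  have := mul_pos (mul_pos (by norm_num : (0 : ℝ) < 4) hr) (AA_pos t q h)
  linarith

/-! ### the map -/

/-- the conformal map -/
def phi (a b t q : ℝ) (z : ℂ) : ℂ :=
  1 + I * b + (-(b : ℂ) * log (f1 (b / t) t q z) - I * a * log (f2 ((1 - t) / a) t q z)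
    + I * log (f2 1 t q z)) / (Real.pi : ℂ)

theorem phi_re (a b t q : ℝ) (z : ℂ) : (phi a b t q z).re = 1 + (-b * Real.log ‖f1 (b / t) t q z‖
    + a * arg (f2 ((1 - t) / a) t q z) - arg (f2 1 t q z)) / Real.pi := by
  rw [phi, add_re, div_ofReal_re]
  simp [log_re, log_im]
  ring

theorem phi_im (a b t q : ℝ) (z : ℂ) : (phi a b t q z).im = b + (-b * arg (f1 (b / t) t q z)
    - a * Real.log ‖f2 ((1 - t) / a) t q z‖ + Real.log ‖f2 1 t q z‖) / Real.pi := by
  rw [phi, add_im, div_ofReal_im]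
  simp [log_re, log_im]

theorem Par.htq (P : Par a b t q) : q < t := by linarith [P.t0, P.q0]

theorem phi_re_pos (P : Par a b t q) {z : ℂ} (h : 0 < z.im) : 0 < (phi a b t q z).re := by
  have hpi := Real.pi_pos
  rw [phi_re]
  have h1 : Real.log ‖f1 (b / t) t q z‖ < 0 := by
    apply Real.log_neg
    · exact norm_pos_iff.2 (f1_ne P.del_pos P.htq P.del_sq h.le (by rintro rfl; simp at h))
    · exact norm_f1_lt P.del_pos P.htq h
  have h2 : 0 ≤ arg (f2 ((1 - t) / a) t q z) :=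
    arg_nonneg_iff.2 (f2_im_nonneg P.rho_pos P.htq h.le)
  have h3 : arg (f2 1 t q z) < Real.pi :=
    arg_lt_pi_iff.2 (Or.inr (f2_im_pos one_pos P.htq h).ne')
  have h4 : 0 ≤ a * arg (f2 ((1 - t) / a) t q z) := mul_nonneg P.a0.le h2
  have h5 : 0 < -b * Real.log ‖f1 (b / t) t q z‖ := by
    have := mul_neg_of_pos_of_neg P.b0 h1
    linarith
  have h6 : (-1 : ℝ) < (-b * Real.log ‖f1 (b / t) t q z‖
    + a * arg (f2 ((1 - t) / a) t q z) - arg (f2 1 t q z)) / Real.pi := by
    rw [lt_div_iff₀ hpi]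
    linarith
  linarith

/-! ### the derivative -/

theorem hasStrictDerivAt_u1 (t : ℝ) {z : ℂ} (h : 0 < z.im) :
    HasStrictDerivAt (u1 t) (2 * u1 t z)⁻¹ z := by
  have h1 : HasStrictDerivAt (fun w : ℂ => w - t) 1 z := (hasStrictDerivAt_id z).sub_const _
  have h2 := (hasStrictDerivAt_sq (z := z - t) (by simpa using h)).comp z h1
  rw [mul_one] at h2
  exact h2

theorem u1_ne (t : ℝ) {z : ℂ} (h : 0 < z.im) : u1 t z ≠ 0 := by
  intro h0
  have := u1_re_pos t h
  rw [h0] at this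
  simp at this

theorem mem_slitPlane_of_im_pos {z : ℂ} (h : 0 < z.im) : z ∈ slitPlane := by
  rw [mem_slitPlane_iff]; exact Or.inr h.ne'

theorem hasStrictDerivAt_log_f1 {d t q : ℝ} (hd0 : 0 < d) (htq : q < t) (hd : d ^ 2 * t = -q)
    {z : ℂ} (h : 0 < z.im) :
    HasStrictDerivAt (fun z => log (f1 d t q z))
      (I * d * (t - q) / ((1 + d ^ 2) * z * (u1 t z * u1 q z))) z := by
  have hU := u1_ne t h
  have hV := u1_ne q h
  have hz : z ≠ 0 := by rintro rfl; simp at h
  have hden := den1_ne hd0 htq h.le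
  have hf := f1_ne hd0 htq hd h.le hz
  have hnum : u1 q z + I * d * u1 t z ≠ 0 := by
    intro h0
    apply hf
    rw [f1, h0, zero_div]
  have h1 := hasStrictDerivAt_u1 t h
  have h2 := hasStrictDerivAt_u1 q h
  have h3 : HasStrictDerivAt (fun z => u1 q z + I * d * u1 t z)
      ((2 * u1 q z)⁻¹ + I * d * (2 * u1 t z)⁻¹) z := h2.add (h1.const_mul _)
  have h4 : HasStrictDerivAt (fun z => u1 q z - I * d * u1 t z)
      ((2 * u1 q z)⁻¹ - I * d * (2 * u1 t z)⁻¹) z := h2.sub (h1.const_mul _)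
  have h5 : HasStrictDerivAt (fun z => log (f1 d t q z))
      ((((2 * u1 q z)⁻¹ + I * d * (2 * u1 t z)⁻¹) * (u1 q z - I * d * u1 t z) -
          (u1 q z + I * d * u1 t z) * ((2 * u1 q z)⁻¹ - I * d * (2 * u1 t z)⁻¹)) /
        (u1 q z - I * d * u1 t z) ^ 2 / f1 d t q z) z :=
    (h3.div h4 hden).clog (mem_slitPlane_of_im_pos (f1_im_pos hd0 htq h))
  refine h5.congr_deriv ?_
  have e1 := prod1 (t := t) (q := q) hd h.le
  have e2 := u1_mul_self t h.le
  have e3 := u1_mul_self q h.le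
  have e4 : (1 + (d : ℂ) ^ 2) * z ≠ 0 := by
    rw [← e1]; exact mul_ne_zero hnum hden
  rw [← e1, f1]
  have key : ((2 * u1 q z)⁻¹ + I * d * (2 * u1 t z)⁻¹) * (u1 q z - I * d * u1 t z)
      - (u1 q z + I * d * u1 t z) * ((2 * u1 q z)⁻¹ - I * d * (2 * u1 t z)⁻¹)
      = I * d * (t - q) / (u1 t z * u1 q z) := by
    field_simp
    linear_combination (2 * I * d) * e3 - (2 * I * d) * e2
  rw [key]
  field_simp

theorem hasStrictDerivAt_log_f2 {r t q : ℝ} (hr0 : 0 < r) (htq : q < t)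
    {z : ℂ} (h : 0 < z.im) (hf : f2 r t q z ≠ 0) :
    HasStrictDerivAt (fun z => log (f2 r t q z))
      (r * (t - q) / (((u1 t z - r * u1 q z) * (u1 t z + r * u1 q z)) * (u1 t z * u1 q z))) z := by
  have hU := u1_ne t h
  have hV := u1_ne q h
  have hden := den2_ne hr0 htq h.le
  have hnum : u1 t z - r * u1 q z ≠ 0 := by
    intro h0
    apply hf
    rw [f2, h0, zero_div]
  have h1 := hasStrictDerivAt_u1 t h
  have h2 := hasStrictDerivAt_u1 q h
  have h3 : HasStrictDerivAt (fun z => u1 t z - r * u1 q z)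
      ((2 * u1 t z)⁻¹ - r * (2 * u1 q z)⁻¹) z := h1.sub (h2.const_mul _)
  have h4 : HasStrictDerivAt (fun z => u1 t z + r * u1 q z)
      ((2 * u1 t z)⁻¹ + r * (2 * u1 q z)⁻¹) z := h1.add (h2.const_mul _)
  have h5 : HasStrictDerivAt (fun z => log (f2 r t q z))
      ((((2 * u1 t z)⁻¹ - r * (2 * u1 q z)⁻¹) * (u1 t z + r * u1 q z) -
          (u1 t z - r * u1 q z) * ((2 * u1 t z)⁻¹ + r * (2 * u1 q z)⁻¹)) /
        (u1 t z + r * u1 q z) ^ 2 / f2 r t q z) z :=
    (h3.div h4 hden).clog (mem_slitPlane_of_im_pos (f2_im_pos hr0 htq h))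
  refine h5.congr_deriv ?_
  have e2 := u1_mul_self t h.le
  have e3 := u1_mul_self q h.le
  rw [f2]
  have key : ((2 * u1 t z)⁻¹ - r * (2 * u1 q z)⁻¹) * (u1 t z + r * u1 q z)
      - (u1 t z - r * u1 q z) * ((2 * u1 t z)⁻¹ + r * (2 * u1 q z)⁻¹)
      = r * (t - q) / (u1 t z * u1 q z) := by
    field_simp
    linear_combination (2 * r : ℂ) * e3 - (2 * r) * e2
  rw [key]
  field_simp

/-- the derivative of `phi` -/
def dphi (t q : ℝ) (z : ℂ) : ℂ := -I * (u1 t z * u1 q z) / (z * (z - 1)) / (Real.pi : ℂ)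

theorem hasStrictDerivAt_phi (P : Par a b t q) {z : ℂ} (h : 0 < z.im) :
    HasStrictDerivAt (phi a b t q) (dphi t q z) z := by
  have hz : z ≠ 0 := by rintro rfl; simp at h
  have hz1 : z ≠ 1 := by rintro rfl; simp at h
  have hz1' : z - 1 ≠ 0 := sub_ne_zero.2 hz1
  have hU := u1_ne t h
  have hV := u1_ne q h
  have h1 := hasStrictDerivAt_log_f1 P.del_pos P.htq P.del_sq h
  have h2 := hasStrictDerivAt_log_f2 P.rho_pos P.htq h
    (f2_ne P.rho_pos P.rho_lt_one P.htq P.rho_sq h.le hz1)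
  have h3 := hasStrictDerivAt_log_f2 (r := 1) one_pos P.htq h (f3_ne P.htq h.le)
  have h4 : HasStrictDerivAt (phi a b t q) _ z :=
    ((((h1.const_mul (-(b : ℂ))).sub (h2.const_mul (I * a))).add (h3.const_mul I)).div_const
      (Real.pi : ℂ)).const_add (1 + I * b)
  convert h4 using 1
  rw [dphi]
  congr 1
  have e0 : (((1 : ℝ) : ℂ)) = 1 := ofReal_one
  rw [prod2 P.rho_sq h.le, e0, one_mul, one_mul, prod3 h.le]
  have e1 := u1_mul_self t h.le
  have e2 := u1_mul_self q h.le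
  have k1 : (1 + ((b / t : ℝ) : ℂ) ^ 2) ≠ 0 := by
    have : (1 + (b / t) ^ 2 : ℝ) ≠ 0 := by positivity
    exact_mod_cast this
  have k2 : (1 - (((1 - t) / a : ℝ) : ℂ) ^ 2) ≠ 0 := by
    have : (1 - ((1 - t) / a) ^ 2 : ℝ) ≠ 0 := by nlinarith [P.rho_pos, P.rho_lt_one]
    exact_mod_cast this
  have k3 : ((q : ℂ) - t) ≠ 0 := by
    have : q - t ≠ 0 := by linarith [P.htq]
    exact_mod_cast this
  -- the constants
  have c1 : (b : ℂ) * ((b / t : ℝ) : ℂ) * (t - q) = b ^ 2 * (1 + ((b / t : ℝ) : ℂ) ^ 2) := by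
    have : b * (b / t) * (t - q) = b ^ 2 * (1 + (b / t) ^ 2) := by
      have k := P.del_sq
      have k' : (b / t) * t = b := div_mul_cancel₀ _ P.t0.ne'
      have : q = -((b / t) ^ 2 * t) := by linarith
      rw [this]
      have : b * (b / t) * (t - -((b / t) ^ 2 * t)) = b * ((b / t) * t) * (1 + (b / t) ^ 2) := by ring
      rw [this, k']
      ring
    exact_mod_cast this
  have c2 : (a : ℂ) * (((1 - t) / a : ℝ) : ℂ) * (t - q) = a ^ 2 * (1 - (((1 - t) / a : ℝ) : ℂ) ^ 2) := by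
    have : a * ((1 - t) / a) * (t - q) = a ^ 2 * (1 - ((1 - t) / a) ^ 2) := by
      have k := P.rho_sq
      have k' : a * ((1 - t) / a) = 1 - t := mul_div_cancel₀ _ P.a0.ne'
      rw [k', ← P.ha]
      linear_combination (1 - t) * k
    exact_mod_cast this
  have m1 : (b : ℂ) * (I * ((b / t : ℝ) : ℂ) * (t - q) /
      ((1 + ((b / t : ℝ) : ℂ) ^ 2) * z * (u1 t z * u1 q z))) = I * b ^ 2 / (z * (u1 t z * u1 q z)) := by
    rw [← mul_div_assoc, div_eq_div_iff (by positivity) (by positivity)]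
    linear_combination I * (z * (u1 t z * u1 q z)) * c1
  have m2 : I * a * ((((1 - t) / a : ℝ) : ℂ) * (t - q) /
      ((1 - (((1 - t) / a : ℝ) : ℂ) ^ 2) * (z - 1) * (u1 t z * u1 q z)))
      = I * a ^ 2 / ((z - 1) * (u1 t z * u1 q z)) := by
    rw [← mul_div_assoc, div_eq_div_iff (by positivity) (by positivity)]
    linear_combination I * ((z - 1) * (u1 t z * u1 q z)) * c2
  have m3 : I * (((t : ℂ) - q) / ((q - t) * (u1 t z * u1 q z))) = - I / (u1 t z * u1 q z) := by
    field_simp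
    ring
  rw [neg_mul (b : ℂ), m1, m2, m3]
  have g1 : (t : ℂ) * q = - b ^ 2 := by exact_mod_cast P.hb
  have g2 : (1 - (t : ℂ)) * (1 - q) = a ^ 2 := by exact_mod_cast P.ha
  field_simp
  linear_combination -(u1 q z) ^ 2 * e1 - (z - t) * e2 - z * g2 + (z - 1) * g1

theorem re_div_pos (P : Par a b t q) {z : ℂ} (h : 0 < z.im) :
    0 < (u1 t z * u1 q z / z).re := by
  have hz : z ≠ 0 := by rintro rfl; simp at h
  have hA := AA_pos t q h
  have hU : 0 < normSq (u1 t z) := normSq_pos.2 (u1_ne t h)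
  have hV : 0 < normSq (u1 q z) := normSq_pos.2 (u1_ne q h)
  have hN : 0 < normSq z := normSq_pos.2 hz
  have hd := P.del_sq
  have a1 := u1_re_sub t h.le
  have a2 := u1_im_mul t h.le
  have a3 := u1_re_sub q h.le
  have a4 := u1_im_mul q h.le
  set d := b / t with hdd
  have hd0 : 0 < 1 + d ^ 2 := by positivity
  have b1 : (1 + d ^ 2) * z.re = ((u1 q z).re * (u1 q z).re - (u1 q z).im * (u1 q z).im)
      + d ^ 2 * ((u1 t z).re * (u1 t z).re - (u1 t z).im * (u1 t z).im) := by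
    rw [a1, a3]; linear_combination hd
  have b2 : (1 + d ^ 2) * z.im = 2 * ((u1 q z).re * (u1 q z).im)
      + d ^ 2 * (2 * ((u1 t z).re * (u1 t z).im)) := by
    rw [a2, a4]; ring
  have e : (u1 t z * u1 q z / z).re = (normSq (u1 q z) + d ^ 2 * normSq (u1 t z)) * AA t q z
      / ((1 + d ^ 2) * normSq z) := by
    rw [eq_div_iff (by positivity)]
    rw [div_re]
    have : ((u1 t z * u1 q z).re * z.re / normSq z + (u1 t z * u1 q z).im * z.im / normSq z)
        * ((1 + d ^ 2) * normSq z) = (u1 t z * u1 q z).re * ((1 + d ^ 2) * z.re)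
          + (u1 t z * u1 q z).im * ((1 + d ^ 2) * z.im) := by
      field_simp
    rw [this, b1, b2, mul_re, mul_im, AA, normSq_apply, normSq_apply]
    ring
  rw [e]
  positivity

theorem dphi_mul_im (P : Par a b t q) {z : ℂ} (h : 0 < z.im) :
    (dphi t q z * (z - 1)).im < 0 := by
  have hz : z ≠ 0 := by rintro rfl; simp at h
  have hz1 : z - 1 ≠ 0 := sub_ne_zero.2 (by rintro rfl; simp at h)
  have e : dphi t q z * (z - 1) = -I * (u1 t z * u1 q z / z) / (Real.pi : ℂ) := by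
    rw [dphi]
    have : (Real.pi : ℂ) ≠ 0 := by exact_mod_cast Real.pi_ne_zero
    field_simp
  have h1 := re_div_pos P h
  rw [e, div_ofReal_im]
  apply div_neg_of_neg_of_pos _ Real.pi_pos
  simp only [neg_mul, neg_im, I_mul_im]
  linarith

theorem dphi_ne (P : Par a b t q) {z : ℂ} (h : 0 < z.im) : dphi t q z ≠ 0 := by
  intro h0
  have := dphi_mul_im P h
  rw [h0, zero_mul] at this
  simp at this

/-! ### injectivity (Noshiro-Warschawski in the strip coordinate `log (z - 1)`) -/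

theorem arg_pos_of_im_pos {z : ℂ} (h : 0 < z.im) : 0 < arg z := by
  have h1 : 0 ≤ arg z := arg_nonneg_iff.2 h.le
  rcases h1.lt_or_eq with h2 | h2
  · exact h2
  · exact absurd (arg_eq_zero_iff.1 h2.symm).2 h.ne'

theorem arg_lt_pi_of_im_pos {z : ℂ} (h : 0 < z.im) : arg z < Real.pi :=
  arg_lt_pi_iff.2 (Or.inr h.ne')

theorem injOn_phi (P : Par a b t q) : InjOn (phi a b t q) UH := by
  intro z hz w hw hzw
  by_contra hne
  have hz'' : 0 < z.im := hz
  have hw'' : 0 < w.im := hw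
  have hz' : 0 < (z - 1).im := by simpa using hz''
  have hw' : 0 < (w - 1).im := by simpa using hw''
  have hz0 : z - 1 ≠ 0 := by intro h; rw [h] at hz'; simp at hz'
  have hw0 : w - 1 ≠ 0 := by intro h; rw [h] at hw'; simp at hw'
  set s := log (z - 1) with hs
  set e := log (w - 1) with he
  have hd : e - s ≠ 0 := by
    intro h
    apply hne
    have h1 : exp s = exp e := by rw [sub_eq_zero.1 h]
    rw [hs, he, exp_log hz0, exp_log hw0] at h1
    linear_combination h1
  set p : ℝ → ℂ := fun x => 1 + exp (s + x * (e - s)) with hp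
  have hpim : ∀ x ∈ Icc (0 : ℝ) 1, 0 < (p x).im := by
    intro x hx
    have h1 : (s + x * (e - s)).im = (1 - x) * arg (z - 1) + x * arg (w - 1) := by
      simp [hs, he, log_im]; ring
    have h2 : 0 < (s + x * (e - s)).im ∧ (s + x * (e - s)).im < Real.pi := by
      rw [h1]
      have k1 := arg_pos_of_im_pos hz'
      have k2 := arg_pos_of_im_pos hw'
      have k3 := arg_lt_pi_of_im_pos hz'
      have k4 := arg_lt_pi_of_im_pos hw'
      have h0 : 0 ≤ 1 - x := by linarith [hx.2]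
      constructor
      · rcases hx.1.lt_or_eq with h3 | h3
        · have := mul_pos h3 k2
          have := mul_nonneg h0 k1.le
          linarith
        · rw [← h3]; simpa using k1
      · have := mul_le_mul_of_nonneg_left k3.le h0
        rcases hx.1.lt_or_eq with h3 | h3
        · have := mul_lt_mul_of_pos_left k4 h3
          linarith
        · rw [← h3]; simpa using k3
    show 0 < (1 + exp (s + x * (e - s))).im
    rw [add_im, one_im, zero_add, exp_im]
    exact mul_pos (Real.exp_pos _) (Real.sin_pos_of_pos_of_lt_pi h2.1 h2.2)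
  have hpd : ∀ x : ℝ, HasDerivAt p ((p x - 1) * (e - s)) x := by
    intro x
    have h1 : HasDerivAt (fun x : ℝ => (x : ℂ)) 1 x := ofRealCLM.hasDerivAt
    have h2 := (h1.mul_const (e - s)).const_add s
    have h3 := h2.cexp.const_add 1
    rw [one_mul] at h3
    refine h3.congr_deriv ?_
    rw [hp]; ring
  set H : ℝ → ℝ := fun x => (phi a b t q (p x) / (e - s)).im with hH
  have hHd : ∀ x ∈ Icc (0 : ℝ) 1, HasDerivAt H (dphi t q (p x) * (p x - 1)).im x := by
    intro x hx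
    have h1 : HasDerivAt (fun x : ℝ => phi a b t q (p x))
        (dphi t q (p x) * ((p x - 1) * (e - s))) x :=
      (hasStrictDerivAt_phi P (hpim x hx)).hasDerivAt.comp x (hpd x)
    have h2 := h1.div_const (e - s)
    have h4 : dphi t q (p x) * ((p x - 1) * (e - s)) / (e - s) = dphi t q (p x) * (p x - 1) := by
      field_simp
    rw [h4] at h2
    have h3 := imCLM.hasFDerivAt.comp_hasDerivAt x h2
    simpa [hH, Function.comp_def] using h3
  have hcont : ContinuousOn H (Icc 0 1) := fun x hx => (hHd x hx).continuousAt.continuousWithinAt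
  obtain ⟨c, hc, hc'⟩ := exists_hasDerivAt_eq_slope H
    (fun x => (dphi t q (p x) * (p x - 1)).im) (zero_lt_one) hcont
    (fun x hx => hHd x ⟨hx.1.le, hx.2.le⟩)
  have p0 : p 0 = z := by
    rw [hp]; simp [hs, exp_log hz0]
  have p1 : p 1 = w := by
    rw [hp]; simp [he, exp_log hw0]
  have h0 : H 0 = H 1 := by
    simp only [hH]
    rw [p0, p1, hzw]
  rw [h0, sub_self, zero_div] at hc'
  exact absurd hc' (ne_of_lt (dphi_mul_im P (hpim c ⟨hc.1.le, hc.2.le⟩)))

theorem isOpen_image_phi (P : Par a b t q) : IsOpen (phi a b t q '' UH) := by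
  rw [isOpen_iff_mem_nhds]
  rintro _ ⟨z, hz, rfl⟩
  have h2 := hasStrictDerivAt_phi P hz
  rw [← h2.map_nhds_eq (dphi_ne P hz)]
  apply image_mem_map
  exact (isOpen_lt continuous_const continuous_im).mem_nhds hz

/-! ### continuity up to the boundary -/

theorem continuousWithinAt_log {z : ℂ} (_h : 0 ≤ z.im) (h0 : z ≠ 0) :
    ContinuousWithinAt log {z : ℂ | 0 ≤ z.im} z := by
  by_cases hz : z ∈ slitPlane
  · exact (continuousAt_clog hz).continuousWithinAt
  · rw [mem_slitPlane_iff] at hz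
    push Not at hz
    have h1 : z.re < 0 := by
      rcases hz.1.lt_or_eq with h2 | h2
      · exact h2
      · exact absurd (Complex.ext h2 hz.2) h0
    exact continuousWithinAt_log_of_re_neg_of_im_zero h1 hz.2

theorem continuousAt_f1 {d t q : ℝ} (hd : 0 < d) (htq : q < t) {z : ℂ} (h : 0 ≤ z.im) :
    ContinuousAt (f1 d t q) z :=
  (((continuous_u1 q).add (continuous_const.mul (continuous_u1 t))).continuousAt).div
    (((continuous_u1 q).sub (continuous_const.mul (continuous_u1 t))).continuousAt)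
    (den1_ne hd htq h)

theorem continuousAt_f2 {r t q : ℝ} (hr : 0 < r) (htq : q < t) {z : ℂ} (h : 0 ≤ z.im) :
    ContinuousAt (f2 r t q) z :=
  (((continuous_u1 t).sub (continuous_const.mul (continuous_u1 q))).continuousAt).div
    (((continuous_u1 t).add (continuous_const.mul (continuous_u1 q))).continuousAt)
    (den2_ne hr htq h)

theorem continuousWithinAt_phi (P : Par a b t q) {z : ℂ} (h : 0 ≤ z.im) (h0 : z ≠ 0) (h1 : z ≠ 1) :
    ContinuousWithinAt (phi a b t q) {z : ℂ | 0 ≤ z.im} z := by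
  have e1 : ContinuousWithinAt (fun z => log (f1 (b / t) t q z)) {z : ℂ | 0 ≤ z.im} z :=
    ContinuousWithinAt.comp (f := f1 (b / t) t q) (t := {z : ℂ | 0 ≤ z.im})
      (continuousWithinAt_log (f1_im_nonneg P.del_pos _) (f1_ne P.del_pos P.htq P.del_sq h h0))
      (continuousAt_f1 P.del_pos P.htq h).continuousWithinAt
      (fun w _ => f1_im_nonneg P.del_pos w)
  have e2 : ContinuousWithinAt (fun z => log (f2 ((1 - t) / a) t q z)) {z : ℂ | 0 ≤ z.im} z :=
    ContinuousWithinAt.comp (f := f2 ((1 - t) / a) t q) (t := {z : ℂ | 0 ≤ z.im})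
      (continuousWithinAt_log (f2_im_nonneg P.rho_pos P.htq h)
        (f2_ne P.rho_pos P.rho_lt_one P.htq P.rho_sq h h1))
      (continuousAt_f2 P.rho_pos P.htq h).continuousWithinAt
      (fun w hw => f2_im_nonneg P.rho_pos P.htq hw)
  have e3 : ContinuousWithinAt (fun z => log (f2 1 t q z)) {z : ℂ | 0 ≤ z.im} z :=
    ContinuousWithinAt.comp (f := f2 1 t q) (t := {z : ℂ | 0 ≤ z.im})
      (continuousWithinAt_log (f2_im_nonneg one_pos P.htq h) (f3_ne P.htq h))
      (continuousAt_f2 one_pos P.htq h).continuousWithinAt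
      (fun w hw => f2_im_nonneg one_pos P.htq hw)
  exact continuousWithinAt_const.add ((((continuousWithinAt_const.mul e1).sub
    (continuousWithinAt_const.mul e2)).add (continuousWithinAt_const.mul e3)).div_const _)

theorem continuousOn_phi (P : Par a b t q) :
    ContinuousOn (phi a b t q) ({z | 0 ≤ z.im} \ {0, 1}) := by
  intro z hz
  have h0 : z ≠ 0 := fun h => hz.2 (by rw [h]; simp)
  have h1 : z ≠ 1 := fun h => hz.2 (by rw [h]; simp)
  exact (continuousWithinAt_phi P hz.1 h0 h1).mono sdiff_subset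

theorem continuousAt_dphi (t q : ℝ) {z : ℂ} (h0 : z ≠ 0) (h1 : z ≠ 1) :
    ContinuousAt (dphi t q) z := by
  have e1 : ContinuousAt (fun z => -I * (u1 t z * u1 q z)) z :=
    (continuous_const.mul ((continuous_u1 t).mul (continuous_u1 q))).continuousAt
  have e2 : ContinuousAt (fun z : ℂ => z * (z - 1)) z :=
    (continuous_id.mul (continuous_id.sub continuous_const)).continuousAt
  exact (e1.div e2 (mul_ne_zero h0 (sub_ne_zero.2 h1))).div_const _

/-! ### the boundary derivative -/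

theorem hasDerivAt_phi_real (P : Par a b t q) {x : ℝ} (h0 : x ≠ 0) (h1 : x ≠ 1) :
    HasDerivAt (fun y : ℝ => phi a b t q (y : ℂ)) (dphi t q (x : ℂ)) x := by
  set e := min (|x| / 2) (|x - 1| / 2) with he
  have he0 : 0 < e := lt_min (by positivity) (by
    have : x - 1 ≠ 0 := sub_ne_zero.2 h1
    positivity)
  have hx0 : (x : ℂ) ≠ 0 := by exact_mod_cast h0
  have hx1 : (x : ℂ) ≠ 1 := by exact_mod_cast h1
  set s : Set ℂ := Metric.ball (x : ℂ) e ∩ UH with hs
  have hUo : IsOpen UH := isOpen_lt continuous_const continuous_im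
  have hUc : Convex ℝ UH := by
    have : UH = imCLM ⁻¹' (Ioi 0) := by ext z; simp [UH]
    rw [this]
    exact (convex_Ioi (0 : ℝ)).is_linear_preimage imCLM.isLinear
  have hcl : closure s ⊆ Metric.closedBall (x : ℂ) e ∩ {z : ℂ | 0 ≤ z.im} := by
    apply closure_minimal
    · rintro z ⟨hz1, hz2⟩
      exact ⟨Metric.ball_subset_closedBall hz1, le_of_lt (show 0 < z.im from hz2)⟩
    · exact Metric.isClosed_closedBall.inter (isClosed_le continuous_const continuous_im)
  have hball : ∀ z ∈ Metric.closedBall (x : ℂ) e, z ≠ 0 ∧ z ≠ 1 := by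
    intro z hz
    rw [Metric.mem_closedBall, dist_eq_norm] at hz
    constructor
    · rintro rfl
      rw [zero_sub, norm_neg, norm_real, Real.norm_eq_abs] at hz
      have h2 : e ≤ |x| / 2 := min_le_left _ _
      have : 0 < |x| := by positivity
      linarith
    · rintro rfl
      rw [← ofReal_one, ← ofReal_sub, norm_real, Real.norm_eq_abs, abs_sub_comm] at hz
      have h2 : e ≤ |x - 1| / 2 := min_le_right _ _
      have : x - 1 ≠ 0 := sub_ne_zero.2 h1
      have : 0 < |x - 1| := by positivity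
      linarith
  have hfd : ∀ z ∈ s, HasFDerivAt (phi a b t q) ((ContinuousLinearMap.mul ℝ ℂ) (dphi t q z)) z := by
    intro z hz
    have k1 := ((hasStrictDerivAt_phi P hz.2).hasDerivAt.hasFDerivAt).restrictScalars ℝ
    refine k1.congr_fderiv ?_
    ext v
    simp [mul_comm]
  have hlim : Tendsto (fun z => fderiv ℝ (phi a b t q) z) (𝓝[s] (x : ℂ))
      (𝓝 ((ContinuousLinearMap.mul ℝ ℂ) (dphi t q (x : ℂ)))) := by
    have k1 : Tendsto (fun z => (ContinuousLinearMap.mul ℝ ℂ) (dphi t q z)) (𝓝[s] (x : ℂ))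
        (𝓝 ((ContinuousLinearMap.mul ℝ ℂ) (dphi t q (x : ℂ)))) :=
      ((ContinuousLinearMap.mul ℝ ℂ).continuous.tendsto _).comp
        ((continuousAt_dphi t q hx0 hx1).tendsto.mono_left nhdsWithin_le_nhds)
    refine k1.congr' ?_
    filter_upwards [self_mem_nhdsWithin] with z hz
    exact (hfd z hz).fderiv.symm
  have key := hasFDerivWithinAt_closure_of_tendsto_fderiv (f := phi a b t q) (s := s) (x := (x : ℂ))
    (fun z hz => (hfd z hz).differentiableAt.differentiableWithinAt)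
    ((convex_ball _ _).inter hUc) (Metric.isOpen_ball.inter hUo)
    (fun z hz => by
      obtain ⟨k1, k2⟩ := hcl hz
      obtain ⟨k3, k4⟩ := hball z k1
      exact (continuousWithinAt_phi P k2 k3 k4).mono (fun w hw => le_of_lt (show 0 < w.im from hw.2))) hlim
  have hmaps : ∀ᶠ y : ℝ in 𝓝 x, (y : ℂ) ∈ closure s := by
    have k1 : ∀ᶠ y : ℝ in 𝓝 x, (y : ℂ) ∈ Metric.ball (x : ℂ) e :=
      (continuous_ofReal.tendsto x).eventually (Metric.ball_mem_nhds _ he0)
    filter_upwards [k1] with y hy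
    apply (Metric.isOpen_ball.inter_closure : Metric.ball (x : ℂ) e ∩ closure UH ⊆ closure s)
    refine ⟨hy, ?_⟩
    have : closure UH = {z : ℂ | 0 ≤ z.im} := closure_setOfPred_lt_im 0
    rw [this]
    simp
  have h2 : HasDerivWithinAt (fun y : ℝ => (y : ℂ)) 1 {y : ℝ | (y : ℂ) ∈ closure s} x :=
    (ofRealCLM.hasDerivAt (x := x)).hasDerivWithinAt
  have h3 := key.comp_hasDerivWithinAt x h2 (fun y hy => hy)
  have h4 := h3.hasDerivAt hmaps
  simpa [Function.comp_def] using h4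

/-! ### the derivative on the real line -/

theorem u1_ofReal_of_le {t x : ℝ} (h : t ≤ x) : u1 t (x : ℂ) = (Real.sqrt (x - t) : ℝ) := by
  rw [u1, ← ofReal_sub, sq_ofReal_nonneg (by linarith)]

theorem u1_ofReal_of_ge {t x : ℝ} (h : x ≤ t) : u1 t (x : ℂ) = (Real.sqrt (t - x) : ℝ) * I := by
  rw [u1, ← ofReal_sub, sq_ofReal_nonpos (by linarith), neg_sub]

theorem dphi_right {t q x : ℝ} (htq : q < t) (h : t ≤ x) :
    dphi t q (x : ℂ) = ((-(Real.sqrt (x - t) * Real.sqrt (x - q)) / (x * (x - 1)) / Real.pi : ℝ) : ℂ)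
      * I := by
  rw [dphi, u1_ofReal_of_le h, u1_ofReal_of_le (by linarith)]
  push_cast
  ring

theorem dphi_mid {t q x : ℝ} (h1 : q ≤ x) (h : x ≤ t) :
    dphi t q (x : ℂ) = (((Real.sqrt (t - x) * Real.sqrt (x - q)) / (x * (x - 1)) / Real.pi : ℝ) : ℂ) := by
  rw [dphi, u1_ofReal_of_ge h, u1_ofReal_of_le h1]
  push_cast
  linear_combination (-(Real.sqrt (t - x) * Real.sqrt (x - q)) / (x * (x - 1)) / Real.pi : ℂ) * I_sq

theorem dphi_left {t q x : ℝ} (htq : q < t) (h : x ≤ q) :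
    dphi t q (x : ℂ) = (((Real.sqrt (t - x) * Real.sqrt (q - x)) / (x * (x - 1)) / Real.pi : ℝ) : ℂ)
      * I := by
  rw [dphi, u1_ofReal_of_ge (by linarith : x ≤ t), u1_ofReal_of_ge h]
  push_cast
  linear_combination (-I * (Real.sqrt (t - x) * Real.sqrt (q - x)) / (x * (x - 1)) / Real.pi : ℂ) * I_sq

/-- real part of `phi` on the real line -/
def bre (a b t q x : ℝ) : ℝ := (phi a b t q (x : ℂ)).re
/-- imaginary part of `phi` on the real line -/
def bim (a b t q x : ℝ) : ℝ := (phi a b t q (x : ℂ)).im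

theorem hasDerivAt_bre (P : Par a b t q) {x : ℝ} (h0 : x ≠ 0) (h1 : x ≠ 1) :
    HasDerivAt (bre a b t q) (dphi t q (x : ℂ)).re x := by
  have h := reCLM.hasFDerivAt.comp_hasDerivAt x (hasDerivAt_phi_real P h0 h1)
  have h2 : HasDerivAt (fun y : ℝ => (phi a b t q (y : ℂ)).re) (dphi t q (x : ℂ)).re x := by
    simpa [Function.comp_def] using h
  exact h2

theorem hasDerivAt_bim (P : Par a b t q) {x : ℝ} (h0 : x ≠ 0) (h1 : x ≠ 1) :
    HasDerivAt (bim a b t q) (dphi t q (x : ℂ)).im x := by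
  have h := imCLM.hasFDerivAt.comp_hasDerivAt x (hasDerivAt_phi_real P h0 h1)
  have h2 : HasDerivAt (fun y : ℝ => (phi a b t q (y : ℂ)).im) (dphi t q (x : ℂ)).im x := by
    simpa [Function.comp_def] using h
  exact h2

theorem const_of {f f' : ℝ → ℝ} {x y : ℝ} (hxy : x < y) (hd : ∀ c ∈ Icc x y, HasDerivAt f (f' c) c)
    (h0 : ∀ c ∈ Ioo x y, f' c = 0) : f x = f y := by
  obtain ⟨c, hc, hc'⟩ := exists_hasDerivAt_eq_slope f f' hxy
    (fun c hc => (hd c hc).continuousAt.continuousWithinAt)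
    (fun c hc => hd c ⟨hc.1.le, hc.2.le⟩)
  rw [h0 c hc] at hc'
  have h1 : y - x ≠ 0 := by linarith
  have h2 := hc'.symm
  rw [div_eq_zero_iff] at h2
  rcases h2 with h2 | h2
  · linarith
  · exact absurd h2 h1

/-- value at the corner `t` -/
theorem phi_t (P : Par a b t q) : phi a b t q (t : ℂ) = a + b * I := by
  have hs : (0 : ℝ) < Real.sqrt (t - q) := Real.sqrt_pos.2 (by linarith [P.htq])
  have e1 : u1 t (t : ℂ) = 0 := by rw [u1_ofReal_of_le le_rfl]; simp
  have e2 : u1 q (t : ℂ) = (Real.sqrt (t - q) : ℝ) := u1_ofReal_of_le (by linarith [P.htq])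
  have hs' : ((Real.sqrt (t - q) : ℝ) : ℂ) ≠ 0 := by exact_mod_cast hs.ne'
  have hr : (((1 - t) / a : ℝ) : ℂ) ≠ 0 := by exact_mod_cast P.rho_pos.ne'
  have g1 : f1 (b / t) t q (t : ℂ) = 1 := by
    rw [f1, e1, e2]; simp [hs']
  have g2 : f2 ((1 - t) / a) t q (t : ℂ) = -1 := by
    rw [f2, e1, e2, zero_sub, zero_add, neg_div, div_self (mul_ne_zero hr hs')]
  have g3 : f2 1 t q (t : ℂ) = -1 := by
    rw [f2, e1, e2, zero_sub, zero_add, neg_div, div_self (mul_ne_zero (by simp) hs')]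
  have hpi : (Real.pi : ℂ) ≠ 0 := by exact_mod_cast Real.pi_ne_zero
  rw [phi, g1, g2, g3, log_one, log_neg_one]
  field_simp
  linear_combination (Real.pi * (1 - a) : ℂ) * I_sq

/-- value at the corner `q` -/
theorem phi_q (P : Par a b t q) : phi a b t q (q : ℂ) = 1 := by
  have hs : (0 : ℝ) < Real.sqrt (t - q) := Real.sqrt_pos.2 (by linarith [P.htq])
  have e1 : u1 q (q : ℂ) = 0 := by rw [u1_ofReal_of_le le_rfl]; simp
  have e2 : u1 t (q : ℂ) = (Real.sqrt (t - q) : ℝ) * I := u1_ofReal_of_ge (by linarith [P.htq])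
  have hs' : ((Real.sqrt (t - q) : ℝ) : ℂ) * I ≠ 0 :=
    mul_ne_zero (by exact_mod_cast hs.ne') I_ne_zero
  have hd : ((b / t : ℝ) : ℂ) ≠ 0 := by exact_mod_cast P.del_pos.ne'
  have g1 : f1 (b / t) t q (q : ℂ) = -1 := by
    rw [f1, e1, e2, zero_sub, zero_add, div_neg,
      div_self (mul_ne_zero (mul_ne_zero I_ne_zero hd) hs')]
  have g2 : ∀ r : ℝ, f2 r t q (q : ℂ) = 1 := by
    intro r
    rw [f2, e1, e2, mul_zero, sub_zero, add_zero, div_self hs']
  have hpi : (Real.pi : ℂ) ≠ 0 := by exact_mod_cast Real.pi_ne_zero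
  rw [phi, g1, g2, g2, log_one, log_neg_one]
  field_simp
  ring

theorem bre_left (P : Par a b t q) {x : ℝ} (h : x ≤ q) : bre a b t q x = 1 := by
  have hq : bre a b t q q = 1 := by rw [bre, phi_q P, one_re]
  rcases h.lt_or_eq with h | h
  · refine (const_of (f' := fun c : ℝ => (dphi t q (c : ℂ)).re) h
      (fun c hc => hasDerivAt_bre P (by linarith [hc.2, P.q0]) (by linarith [hc.2, P.q0])) ?_).trans hq
    intro c hc
    show (dphi t q (c : ℂ)).re = 0
    rw [dphi_left P.htq hc.2.le, re_ofReal_mul, I_re, mul_zero]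
  · rw [h, hq]

theorem bim_mid1 (P : Par a b t q) {x : ℝ} (h : q ≤ x) (hx : x < 0) : bim a b t q x = 0 := by
  have hq : bim a b t q q = 0 := by rw [bim, phi_q P, one_im]
  rcases h.lt_or_eq with h | h
  · refine (const_of (f' := fun c : ℝ => (dphi t q (c : ℂ)).im) h
      (fun c hc => hasDerivAt_bim P (by linarith [hc.2]) (by linarith [hc.2])) ?_).symm.trans hq
    intro c hc
    show (dphi t q (c : ℂ)).im = 0
    rw [dphi_mid hc.1.le (by linarith [hc.2, P.t0]), ofReal_im]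
  · rw [← h, hq]

theorem bim_mid2 (P : Par a b t q) {x : ℝ} (h : 0 < x) (hx : x ≤ t) : bim a b t q x = b := by
  have ht : bim a b t q t = b := by rw [bim, phi_t P]; simp
  rcases hx.lt_or_eq with hx | hx
  · refine (const_of (f' := fun c : ℝ => (dphi t q (c : ℂ)).im) hx
      (fun c hc => hasDerivAt_bim P (by linarith [hc.1]) (by linarith [hc.2, P.t1])) ?_).trans ht
    intro c hc
    show (dphi t q (c : ℂ)).im = 0
    rw [dphi_mid (by linarith [hc.1, P.q0]) hc.2.le, ofReal_im]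
  · rw [hx, ht]

theorem bre_right1 (P : Par a b t q) {x : ℝ} (h : t ≤ x) (hx : x < 1) : bre a b t q x = a := by
  have ht : bre a b t q t = a := by rw [bre, phi_t P]; simp
  rcases h.lt_or_eq with h | h
  · refine (const_of (f' := fun c : ℝ => (dphi t q (c : ℂ)).re) h
      (fun c hc => hasDerivAt_bre P (by linarith [hc.1, P.t0]) (by linarith [hc.2])) ?_).symm.trans ht
    intro c hc
    show (dphi t q (c : ℂ)).re = 0
    rw [dphi_right P.htq hc.1.le, re_ofReal_mul, I_re, mul_zero]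
  · rw [← h, ht]

theorem bre_right2 (P : Par a b t q) {x : ℝ} (hx : 1 < x) : bre a b t q x = 0 := by
  have e1 : u1 t (x : ℂ) = (Real.sqrt (x - t) : ℝ) := u1_ofReal_of_le (by linarith [P.t1])
  have e2 : u1 q (x : ℂ) = (Real.sqrt (x - q) : ℝ) :=
    u1_ofReal_of_le (by linarith [P.htq, P.t1])
  have s1 : 0 < Real.sqrt (x - t) := Real.sqrt_pos.2 (by linarith [P.t1])
  have s2 : 0 < Real.sqrt (x - q) := Real.sqrt_pos.2 (by linarith [P.htq, P.t1])
  have s3 : Real.sqrt (x - t) < Real.sqrt (x - q) :=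
    Real.sqrt_lt_sqrt (by linarith [P.t1]) (by linarith [P.htq])
  have q1 : Real.sqrt (x - t) ^ 2 = x - t := Real.sq_sqrt (by linarith [P.t1])
  have q2 : Real.sqrt (x - q) ^ 2 = x - q := Real.sq_sqrt (by linarith [P.htq, P.t1])
  have g1 : ‖f1 (b / t) t q (x : ℂ)‖ = 1 := by
    have k1 : normSq (f1 (b / t) t q (x : ℂ)) = 1 := by
      rw [f1, normSq_div, normSq_num1, BB, e1, e2]
      simp only [ofReal_im, ofReal_re, mul_zero, zero_mul, sub_zero]
      apply div_self
      rw [← e1, ← e2]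
      exact (normSq_pos.2 (den1_ne P.del_pos P.htq (by simp))).ne'
    rw [normSq_eq_norm_sq] at k1
    nlinarith [norm_nonneg (f1 (b / t) t q (x : ℂ))]
  have g2 : arg (f2 ((1 - t) / a) t q (x : ℂ)) = 0 := by
    have k : f2 ((1 - t) / a) t q (x : ℂ) = (((Real.sqrt (x - t) - (1 - t) / a * Real.sqrt (x - q))
      / (Real.sqrt (x - t) + (1 - t) / a * Real.sqrt (x - q)) : ℝ) : ℂ) := by
      rw [f2, e1, e2]; push_cast; rfl
    rw [k]
    apply arg_ofReal_of_nonneg
    apply div_nonneg _ (by have := P.rho_pos; positivity)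
    have k1 := P.rho_sq
    have k2 : ((1 - t) / a * Real.sqrt (x - q)) ^ 2 ≤ Real.sqrt (x - t) ^ 2 := by
      rw [mul_pow, q1, q2]
      have k3 : ((1 - t) / a) ^ 2 ≤ 1 := by nlinarith [P.rho_pos, P.rho_lt_one]
      nlinarith
    have := abs_le_of_sq_le_sq' k2 s1.le
    linarith [this.2]
  have g3 : arg (f2 1 t q (x : ℂ)) = Real.pi := by
    have k : f2 1 t q (x : ℂ) = (((Real.sqrt (x - t) - Real.sqrt (x - q))
      / (Real.sqrt (x - t) + Real.sqrt (x - q)) : ℝ) : ℂ) := by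
      rw [f2, e1, e2]; push_cast; ring
    rw [k]
    apply arg_ofReal_of_neg
    exact div_neg_of_neg_of_pos (by linarith) (by linarith)
  rw [bre, phi_re, g1, g2, g3, Real.log_one, mul_zero, mul_zero, add_zero, zero_sub, neg_div,
    div_self Real.pi_ne_zero]
  ring

/-! ### monotonicity on the boundary -/

theorem strictMonoOn_left (P : Par a b t q) : StrictMonoOn (bim a b t q) (Iic q) := by
  apply strictMonoOn_of_deriv_pos (convex_Iic q)
  · intro x hx
    have hx' : x ≤ q := hx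
    exact (hasDerivAt_bim P (by linarith [P.q0]) (by linarith [P.q0])).continuousAt.continuousWithinAt
  · intro x hx
    rw [interior_Iic] at hx
    have hx' : x < q := hx
    rw [(hasDerivAt_bim P (by linarith [P.q0]) (by linarith [P.q0])).deriv, dphi_left P.htq hx'.le,
      im_ofReal_mul, I_im, mul_one]
    have k1 : 0 < Real.sqrt (t - x) := Real.sqrt_pos.2 (by linarith [P.htq])
    have k2 : 0 < Real.sqrt (q - x) := Real.sqrt_pos.2 (by linarith)
    have k3 : 0 < x * (x - 1) := mul_pos_of_neg_of_neg (by linarith [P.q0]) (by linarith [P.q0])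
    have := Real.pi_pos
    positivity

theorem strictMonoOn_mid1 (P : Par a b t q) : StrictMonoOn (bre a b t q) (Ico q 0) := by
  apply strictMonoOn_of_deriv_pos (convex_Ico q 0)
  · intro x hx
    exact (hasDerivAt_bre P (by linarith [hx.2]) (by linarith [hx.2])).continuousAt.continuousWithinAt
  · intro x hx
    rw [interior_Ico] at hx
    rw [(hasDerivAt_bre P (by linarith [hx.2]) (by linarith [hx.2])).deriv,
      dphi_mid hx.1.le (by linarith [hx.2, P.t0]), ofReal_re]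
    have k1 : 0 < Real.sqrt (t - x) := Real.sqrt_pos.2 (by linarith [hx.2, P.t0])
    have k2 : 0 < Real.sqrt (x - q) := Real.sqrt_pos.2 (by linarith [hx.1])
    have k3 : 0 < x * (x - 1) := mul_pos_of_neg_of_neg hx.2 (by linarith [hx.2])
    have := Real.pi_pos
    positivity

theorem strictAntiOn_mid2 (P : Par a b t q) : StrictAntiOn (bre a b t q) (Ioc 0 t) := by
  apply strictAntiOn_of_deriv_neg (convex_Ioc 0 t)
  · intro x hx
    exact (hasDerivAt_bre P (by linarith [hx.1])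
      (by linarith [hx.2, P.t1])).continuousAt.continuousWithinAt
  · intro x hx
    rw [interior_Ioc] at hx
    rw [(hasDerivAt_bre P (by linarith [hx.1]) (by linarith [hx.2, P.t1])).deriv,
      dphi_mid (by linarith [hx.1, P.q0]) hx.2.le, ofReal_re]
    have k1 : 0 < Real.sqrt (t - x) := Real.sqrt_pos.2 (by linarith [hx.2])
    have k2 : 0 < Real.sqrt (x - q) := Real.sqrt_pos.2 (by linarith [hx.1, P.q0])
    have k3 : x * (x - 1) < 0 := mul_neg_of_pos_of_neg hx.1 (by linarith [hx.2, P.t1])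
    exact div_neg_of_neg_of_pos (div_neg_of_pos_of_neg (mul_pos k1 k2) k3) Real.pi_pos

theorem strictMonoOn_right1 (P : Par a b t q) : StrictMonoOn (bim a b t q) (Ico t 1) := by
  apply strictMonoOn_of_deriv_pos (convex_Ico t 1)
  · intro x hx
    exact (hasDerivAt_bim P (by linarith [hx.1, P.t0])
      (by linarith [hx.2])).continuousAt.continuousWithinAt
  · intro x hx
    rw [interior_Ico] at hx
    rw [(hasDerivAt_bim P (by linarith [hx.1, P.t0]) (by linarith [hx.2])).deriv,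
      dphi_right P.htq hx.1.le, im_ofReal_mul, I_im, mul_one]
    have k1 : 0 < Real.sqrt (x - t) := Real.sqrt_pos.2 (by linarith [hx.1])
    have k2 : 0 < Real.sqrt (x - q) := Real.sqrt_pos.2 (by linarith [hx.1, P.htq])
    have k3 : x * (x - 1) < 0 :=
      mul_neg_of_pos_of_neg (by linarith [hx.1, P.t0]) (by linarith [hx.2])
    apply div_pos _ Real.pi_pos
    exact div_pos_of_neg_of_neg (by have := mul_pos k1 k2; linarith) k3

theorem strictAntiOn_right2 (P : Par a b t q) : StrictAntiOn (bim a b t q) (Ioi 1) := by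
  apply strictAntiOn_of_deriv_neg (convex_Ioi 1)
  · intro x hx
    have hx' : 1 < x := hx
    exact (hasDerivAt_bim P (by linarith) (by linarith)).continuousAt.continuousWithinAt
  · intro x hx
    rw [interior_Ioi] at hx
    have hx' : 1 < x := hx
    rw [(hasDerivAt_bim P (by linarith) (by linarith)).deriv,
      dphi_right P.htq (by linarith [P.t1]), im_ofReal_mul, I_im, mul_one]
    have k1 : 0 < Real.sqrt (x - t) := Real.sqrt_pos.2 (by linarith [P.t1])
    have k2 : 0 < Real.sqrt (x - q) := Real.sqrt_pos.2 (by linarith [P.t1, P.htq])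
    have k3 : 0 < x * (x - 1) := mul_pos (by linarith) (by linarith)
    apply div_neg_of_neg_of_pos _ Real.pi_pos
    exact div_neg_of_neg_of_pos (by have := mul_pos k1 k2; linarith) k3

/-! ### behaviour at the three ends -/

theorem tendsto_re_zero (P : Par a b t q) :
    Tendsto (fun z => (phi a b t q z).re) (𝓝[{z | 0 ≤ z.im} \ {0}] 0) atTop := by
  have g0 : f1 (b / t) t q 0 = 0 := by
    have h1 := prod1 P.del_sq (z := 0) (by simp)
    rw [mul_zero] at h1
    rcases mul_eq_zero.1 h1 with h | h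
    · rw [f1, h, zero_div]
    · exact absurd h (den1_ne P.del_pos P.htq (by simp))
  have h1 : Tendsto (fun z => ‖f1 (b / t) t q z‖) (𝓝[{z : ℂ | 0 ≤ z.im} \ {0}] 0) (𝓝[≠] 0) := by
    rw [tendsto_nhdsWithin_iff]
    constructor
    · have h2 : Tendsto (fun z => ‖f1 (b / t) t q z‖) (𝓝 0) (𝓝 ‖f1 (b / t) t q 0‖) :=
        ((continuousAt_f1 P.del_pos P.htq (z := 0) (by simp)).norm).tendsto
      rw [g0, norm_zero] at h2
      exact h2.mono_left nhdsWithin_le_nhds
    · filter_upwards [self_mem_nhdsWithin] with z hz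
      have := f1_ne P.del_pos P.htq P.del_sq hz.1 (by simpa using hz.2)
      simpa using this
  have h2 := Real.tendsto_log_nhdsNE_zero.comp h1
  have h3 : Tendsto (fun z => -b * Real.log ‖f1 (b / t) t q z‖) (𝓝[{z : ℂ | 0 ≤ z.im} \ {0}] 0)
      atTop := h2.const_mul_atBot_of_neg (by linarith [P.b0])
  have h4 : Tendsto (fun z => 1 + (-b * Real.log ‖f1 (b / t) t q z‖ + -Real.pi) / Real.pi)
      (𝓝[{z : ℂ | 0 ≤ z.im} \ {0}] 0) atTop :=
    tendsto_atTop_add_const_left _ _
      ((tendsto_atTop_add_const_right _ _ h3).atTop_div_const Real.pi_pos)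
  refine tendsto_atTop_mono' _ ?_ h4
  filter_upwards [self_mem_nhdsWithin] with z hz
  rw [phi_re]
  have k1 : 0 ≤ a * arg (f2 ((1 - t) / a) t q z) :=
    mul_nonneg P.a0.le (arg_nonneg_iff.2 (f2_im_nonneg P.rho_pos P.htq hz.1))
  have k2 : arg (f2 1 t q z) ≤ Real.pi := arg_le_pi _
  have := Real.pi_pos
  gcongr 1 + ?_ / Real.pi
  linarith

theorem tendsto_im_one (P : Par a b t q) :
    Tendsto (fun z => (phi a b t q z).im) (𝓝[{z | 0 ≤ z.im} \ {1}] 1) atTop := by
  have g0 : f2 ((1 - t) / a) t q 1 = 0 := by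
    have h1 := prod2 P.rho_sq (z := 1) (by simp)
    rw [sub_self, mul_zero] at h1
    rcases mul_eq_zero.1 h1 with h | h
    · rw [f2, h, zero_div]
    · exact absurd h (den2_ne P.rho_pos P.htq (by simp))
  have h1 : Tendsto (fun z => ‖f2 ((1 - t) / a) t q z‖) (𝓝[{z : ℂ | 0 ≤ z.im} \ {1}] 1)
      (𝓝[≠] 0) := by
    rw [tendsto_nhdsWithin_iff]
    constructor
    · have h2 : Tendsto (fun z => ‖f2 ((1 - t) / a) t q z‖) (𝓝 1)
          (𝓝 ‖f2 ((1 - t) / a) t q 1‖) :=
        ((continuousAt_f2 P.rho_pos P.htq (z := 1) (by simp)).norm).tendsto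
      rw [g0, norm_zero] at h2
      exact h2.mono_left nhdsWithin_le_nhds
    · filter_upwards [self_mem_nhdsWithin] with z hz
      have := f2_ne P.rho_pos P.rho_lt_one P.htq P.rho_sq hz.1 (by simpa using hz.2)
      simpa using this
  have h2 := Real.tendsto_log_nhdsNE_zero.comp h1
  have h3 : Tendsto (fun z => -a * Real.log ‖f2 ((1 - t) / a) t q z‖)
      (𝓝[{z : ℂ | 0 ≤ z.im} \ {1}] 1) atTop := h2.const_mul_atBot_of_neg (by linarith [P.a0])
  set C := Real.log ‖f2 1 t q 1‖ - 1 with hC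
  have h4 : Tendsto (fun z => b + (-a * Real.log ‖f2 ((1 - t) / a) t q z‖ + (-b * Real.pi + C))
      / Real.pi) (𝓝[{z : ℂ | 0 ≤ z.im} \ {1}] 1) atTop :=
    tendsto_atTop_add_const_left _ _
      ((tendsto_atTop_add_const_right _ _ h3).atTop_div_const Real.pi_pos)
  have h5 : ∀ᶠ z in 𝓝[{z : ℂ | 0 ≤ z.im} \ {1}] 1, C < Real.log ‖f2 1 t q z‖ := by
    have k1 : ContinuousAt (fun z => Real.log ‖f2 1 t q z‖) 1 :=
      ((continuousAt_f2 one_pos P.htq (z := 1) (by simp)).norm).log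
        (norm_ne_zero_iff.2 (f3_ne P.htq (by simp)))
    exact (k1.tendsto.mono_left nhdsWithin_le_nhds).eventually (lt_mem_nhds (by
      show C < Real.log ‖f2 1 t q 1‖
      rw [hC]; linarith))
  refine tendsto_atTop_mono' _ ?_ h4
  filter_upwards [h5] with z hz
  rw [phi_im]
  have k2 : b * arg (f1 (b / t) t q z) ≤ b * Real.pi :=
    mul_le_mul_of_nonneg_left (arg_le_pi _) P.b0.le
  have := Real.pi_pos
  gcongr b + ?_ / Real.pi
  linarith

theorem norm_u1_sq (t : ℝ) {z : ℂ} (h : 0 ≤ z.im) : ‖u1 t z‖ ^ 2 = ‖z - t‖ := by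
  rw [← u1_mul_self t h, norm_mul]; ring

theorem norm_add_sq_le (x y : ℂ) : ‖x + y‖ ^ 2 ≤ 2 * (‖x‖ ^ 2 + ‖y‖ ^ 2) := by
  have h1 := norm_add_le x y
  nlinarith [norm_nonneg (x + y), norm_nonneg x, norm_nonneg y, sq_nonneg (‖x‖ - ‖y‖)]

theorem norm_sub_ofReal_le {z : ℂ} {x : ℝ} : ‖z - x‖ ≤ ‖z‖ + |x| := by
  have h := norm_sub_le z (x : ℂ)
  rwa [norm_real, Real.norm_eq_abs] at h

theorem norm_sub_ofReal_ge {z : ℂ} {x : ℝ} : ‖z‖ - |x| ≤ ‖z - x‖ := by
  have h := norm_sub_norm_le z (x : ℂ)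
  rwa [norm_real, Real.norm_eq_abs] at h

theorem norm_f2_ge (P : Par a b t q) {z : ℂ} (h : 0 ≤ z.im) (hz : 2 * (1 - q) ≤ ‖z‖) :
    (1 - ((1 - t) / a) ^ 2) / 16 ≤ ‖f2 ((1 - t) / a) t q z‖ := by
  set r := (1 - t) / a with hr
  have hr0 : 0 < r := P.rho_pos
  have hr1 : r < 1 := P.rho_lt_one
  have hden := den2_ne hr0 P.htq h
  have hz0 : 0 < ‖z‖ := by linarith [P.q0]
  have hk : 0 < 1 - r ^ 2 := by nlinarith
  have e1 : ‖u1 t z - r * u1 q z‖ * ‖u1 t z + r * u1 q z‖ = (1 - r ^ 2) * ‖z - 1‖ := by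
    rw [← norm_mul, prod2 P.rho_sq h, norm_mul]
    congr 1
    have : (1 - (r : ℂ) ^ 2) = ((1 - r ^ 2 : ℝ) : ℂ) := by push_cast; rfl
    rw [this, norm_real, Real.norm_eq_abs, abs_of_pos hk]
  have e2 : ‖u1 t z + r * u1 q z‖ ^ 2 ≤ 8 * ‖z‖ := by
    have k1 := norm_add_sq_le (u1 t z) (r * u1 q z)
    have k2 : ‖(r : ℂ) * u1 q z‖ ^ 2 ≤ ‖u1 q z‖ ^ 2 := by
      rw [norm_mul, mul_pow, norm_real, Real.norm_eq_abs, abs_of_pos hr0]
      have : r ^ 2 ≤ 1 := by nlinarith
      nlinarith [sq_nonneg ‖u1 q z‖]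
    rw [norm_u1_sq t h] at k1
    rw [norm_u1_sq q h] at k2
    have k3 : ‖z - t‖ ≤ ‖z‖ + |t| := norm_sub_ofReal_le
    have k4 : ‖z - q‖ ≤ ‖z‖ + |q| := norm_sub_ofReal_le
    rw [abs_of_pos P.t0] at k3
    rw [abs_of_neg P.q0] at k4
    linarith [P.t1, P.q0]
  have e3 : ‖z‖ / 2 ≤ ‖z - 1‖ := by
    have k3 : ‖z‖ - |(1 : ℝ)| ≤ ‖z - (1 : ℝ)‖ := norm_sub_ofReal_ge
    rw [abs_one, ofReal_one] at k3
    linarith [P.q0]
  have e4 : 0 < ‖u1 t z + r * u1 q z‖ := norm_pos_iff.2 hden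
  rw [f2, norm_div, le_div_iff₀ e4]
  have e5 : (1 - r ^ 2) / 16 * ‖u1 t z + r * u1 q z‖ * ‖u1 t z + r * u1 q z‖
      ≤ ‖u1 t z - r * u1 q z‖ * ‖u1 t z + r * u1 q z‖ := by
    rw [e1]
    have k1 : (1 - r ^ 2) / 16 * ‖u1 t z + r * u1 q z‖ * ‖u1 t z + r * u1 q z‖
        = (1 - r ^ 2) / 16 * ‖u1 t z + r * u1 q z‖ ^ 2 := by ring
    rw [k1]
    have k2 := mul_le_mul_of_nonneg_left e2 (by linarith : 0 ≤ (1 - r ^ 2) / 16)
    have k3 := mul_le_mul_of_nonneg_left e3 hk.le
    linarith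
  exact le_of_mul_le_mul_right e5 e4

theorem norm_f3_le (P : Par a b t q) {z : ℂ} (h : 0 ≤ z.im) (hz : 2 * (1 - q) ≤ ‖z‖) :
    ‖f2 1 t q z‖ ≤ 2 * (t - q) / ‖z‖ := by
  have hden := den2_ne one_pos P.htq h
  rw [ofReal_one, one_mul] at hden
  have hz0 : 0 < ‖z‖ := by linarith [P.q0]
  have e1 : ‖u1 t z - u1 q z‖ * ‖u1 t z + u1 q z‖ = t - q := by
    rw [← norm_mul, prod3 h]
    have : ((q : ℂ) - t) = ((q - t : ℝ) : ℂ) := by push_cast; rfl
    rw [this, norm_real, Real.norm_eq_abs, abs_of_neg (by linarith [P.htq])]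
    ring
  have e2 : ‖z‖ / 2 ≤ ‖u1 t z + u1 q z‖ ^ 2 := by
    have k1 : ‖u1 t z + u1 q z‖ ^ 2 = ‖u1 t z‖ ^ 2 + ‖u1 q z‖ ^ 2 + 2 * AA t q z := by
      rw [← normSq_eq_norm_sq, ← normSq_eq_norm_sq, ← normSq_eq_norm_sq, normSq_apply,
        normSq_apply, normSq_apply, AA, add_re, add_im]
      ring
    rw [k1, norm_u1_sq t h]
    have k2 := AA_nonneg t q z
    have k3 : ‖z‖ - |t| ≤ ‖z - t‖ := norm_sub_ofReal_ge
    rw [abs_of_pos P.t0] at k3
    have k4 := sq_nonneg ‖u1 q z‖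
    linarith [P.t1, P.q0]
  have e4 : 0 < ‖u1 t z + u1 q z‖ := norm_pos_iff.2 hden
  rw [f2, ofReal_one, one_mul, norm_div, div_le_div_iff₀ e4 hz0]
  have e5 : ‖u1 t z - u1 q z‖ * ‖z‖ * ‖u1 t z + u1 q z‖
      ≤ 2 * (t - q) * ‖u1 t z + u1 q z‖ * ‖u1 t z + u1 q z‖ := by
    have k1 : ‖u1 t z - u1 q z‖ * ‖z‖ * ‖u1 t z + u1 q z‖
        = (‖u1 t z - u1 q z‖ * ‖u1 t z + u1 q z‖) * ‖z‖ := by ring
    rw [k1, e1]
    have k2 : 0 < t - q := by linarith [P.htq]
    have k3 := mul_le_mul_of_nonneg_left e2 k2.le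
    nlinarith
  exact le_of_mul_le_mul_right e5 e4

theorem im_phi_le (P : Par a b t q) {z : ℂ} (h : 0 ≤ z.im) (hz : 2 * (1 - q) ≤ ‖z‖) :
    (phi a b t q z).im ≤ b + (-a * Real.log ((1 - ((1 - t) / a) ^ 2) / 16)
      + Real.log (2 * (t - q) / ‖z‖)) / Real.pi := by
  have hr0 : 0 < (1 - t) / a := P.rho_pos
  have hr1 : (1 - t) / a < 1 := P.rho_lt_one
  have hz0 : 0 < ‖z‖ := by linarith [P.q0]
  have hk : 0 < (1 - ((1 - t) / a) ^ 2) / 16 := by nlinarith
  rw [phi_im]
  have k1 : Real.log ((1 - ((1 - t) / a) ^ 2) / 16) ≤ Real.log ‖f2 ((1 - t) / a) t q z‖ :=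
    Real.log_le_log hk (norm_f2_ge P h hz)
  have k2 : Real.log ‖f2 1 t q z‖ ≤ Real.log (2 * (t - q) / ‖z‖) :=
    Real.log_le_log (norm_pos_iff.2 (f3_ne P.htq h)) (norm_f3_le P h hz)
  have k3 : 0 ≤ b * arg (f1 (b / t) t q z) :=
    mul_nonneg P.b0.le (arg_nonneg_iff.2 (f1_im_nonneg P.del_pos z))
  have k4 := mul_le_mul_of_nonneg_left k1 P.a0.le
  have := Real.pi_pos
  gcongr b + ?_ / Real.pi
  linarith

theorem tendsto_im_inf (P : Par a b t q) :
    Tendsto (fun z => (phi a b t q z).im) (cocompact ℂ ⊓ 𝓟 {z | 0 ≤ z.im}) atBot := by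
  have h0 : Tendsto (fun z : ℂ => ‖z‖) (cocompact ℂ ⊓ 𝓟 {z | 0 ≤ z.im}) atTop :=
    (tendsto_norm_cocompact_atTop (E := ℂ)).mono_left inf_le_left
  have h1 : Tendsto (fun z : ℂ => 2 * (t - q) / ‖z‖) (cocompact ℂ ⊓ 𝓟 {z | 0 ≤ z.im}) (𝓝[>] 0) := by
    rw [tendsto_nhdsWithin_iff]
    refine ⟨h0.const_div_atTop _, ?_⟩
    filter_upwards [h0.eventually_gt_atTop 0] with z hz
    exact div_pos (by linarith [P.htq]) hz
  have h2 : Tendsto (fun z : ℂ => Real.log (2 * (t - q) / ‖z‖))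
      (cocompact ℂ ⊓ 𝓟 {z | 0 ≤ z.im}) atBot := Real.tendsto_log_nhdsGT_zero.comp h1
  have h3 : Tendsto (fun z : ℂ => b + (-a * Real.log ((1 - ((1 - t) / a) ^ 2) / 16)
      + Real.log (2 * (t - q) / ‖z‖)) / Real.pi) (cocompact ℂ ⊓ 𝓟 {z | 0 ≤ z.im}) atBot :=
    tendsto_atBot_add_const_left _ _
      ((tendsto_atBot_add_const_left _ _ h2).atBot_div_const Real.pi_pos)
  refine tendsto_atBot_mono' _ ?_ h3
  filter_upwards [h0.eventually_ge_atTop (2 * (1 - q)), mem_inf_of_right (mem_principal_self _)]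
    with z hz hz2
  exact im_phi_le P hz2 hz

/-! ### large real part implies bounded imaginary part -/

theorem norm_f1_ge (P : Par a b t q) {z : ℂ} (h : 0 ≤ z.im) :
    (1 + (b / t) ^ 2) * ‖z‖ ≤ ‖f1 (b / t) t q z‖ * (2 * ((1 + (b / t) ^ 2) * ‖z‖ - 2 * q)) := by
  set d := b / t with hd
  have hd0 : 0 < d := P.del_pos
  have hden := den1_ne hd0 P.htq h
  have e1 : ‖u1 q z + I * d * u1 t z‖ * ‖u1 q z - I * d * u1 t z‖ = (1 + d ^ 2) * ‖z‖ := by
    rw [← norm_mul, prod1 P.del_sq h, norm_mul]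
    congr 1
    have : (1 + (d : ℂ) ^ 2) = ((1 + d ^ 2 : ℝ) : ℂ) := by push_cast; rfl
    rw [this, norm_real, Real.norm_eq_abs, abs_of_pos (by positivity)]
  have e2 : ‖u1 q z - I * d * u1 t z‖ ^ 2 ≤ 2 * ((1 + d ^ 2) * ‖z‖ - 2 * q) := by
    have k1 := norm_add_sq_le (u1 q z) (-(I * d * u1 t z))
    rw [← sub_eq_add_neg, norm_neg] at k1
    have k2 : ‖I * (d : ℂ) * u1 t z‖ ^ 2 = d ^ 2 * ‖u1 t z‖ ^ 2 := by
      rw [norm_mul, norm_mul, norm_I, one_mul, mul_pow, norm_real, Real.norm_eq_abs, sq_abs]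
    rw [k2, norm_u1_sq t h, norm_u1_sq q h] at k1
    have k3 : ‖z - t‖ ≤ ‖z‖ + |t| := norm_sub_ofReal_le
    have k4 : ‖z - q‖ ≤ ‖z‖ + |q| := norm_sub_ofReal_le
    rw [abs_of_pos P.t0] at k3
    rw [abs_of_neg P.q0] at k4
    have k5 := mul_le_mul_of_nonneg_left k3 (sq_nonneg d)
    have k6 := P.del_sq
    linarith
  have e3 : 0 < ‖u1 q z - I * d * u1 t z‖ := norm_pos_iff.2 hden
  have e4 : (1 + d ^ 2) * ‖z‖ = ‖f1 d t q z‖ * ‖u1 q z - I * d * u1 t z‖ ^ 2 := by
    rw [← e1, f1, norm_div]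
    field_simp
  calc (1 + d ^ 2) * ‖z‖ = ‖f1 d t q z‖ * ‖u1 q z - I * d * u1 t z‖ ^ 2 := e4
    _ ≤ _ := mul_le_mul_of_nonneg_left e2 (norm_nonneg _)

theorem im_bdd (P : Par a b t q) :
    ∃ M C : ℝ, ∀ z : ℂ, 0 < z.im → M ≤ (phi a b t q z).re → |(phi a b t q z).im| ≤ C := by
  -- bound near 0
  set g : ℂ → ℝ := fun z => b + (b * Real.pi + a * |Real.log ‖f2 ((1 - t) / a) t q z‖|
    + |Real.log ‖f2 1 t q z‖|) / Real.pi with hg
  have hgc : ContinuousAt g 0 := by
    have k1 : ContinuousAt (fun z => Real.log ‖f2 1 t q z‖) 0 :=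
      ((continuousAt_f2 one_pos P.htq (z := 0) (by simp)).norm).log
        (norm_ne_zero_iff.2 (f3_ne P.htq (by simp)))
    have k2 : ContinuousAt (fun z => Real.log ‖f2 ((1 - t) / a) t q z‖) 0 :=
      ((continuousAt_f2 P.rho_pos P.htq (z := 0) (by simp)).norm).log
        (norm_ne_zero_iff.2 (f2_ne P.rho_pos P.rho_lt_one P.htq P.rho_sq (by simp) zero_ne_one))
    exact continuousAt_const.add
      (((continuousAt_const.add (continuousAt_const.mul k2.abs)).add k1.abs).div_const _)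
  obtain ⟨e, he, hball⟩ := Metric.eventually_nhds_iff.1
    (hgc.tendsto.eventually (gt_mem_nhds (lt_add_one (g 0))))
  have hgb : ∀ z : ℂ, 0 < z.im → |(phi a b t q z).im| ≤ g z := by
    intro z hz
    rw [phi_im]
    have k1 : 0 ≤ arg (f1 (b / t) t q z) := arg_nonneg_iff.2 (f1_im_nonneg P.del_pos z)
    have k2 : arg (f1 (b / t) t q z) ≤ Real.pi := arg_le_pi _
    have k3 := mul_nonneg P.b0.le k1
    have k4 := mul_le_mul_of_nonneg_left k2 P.b0.le
    have k5 := abs_le.1 (le_refl |Real.log ‖f2 ((1 - t) / a) t q z‖|)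
    have k6 := abs_le.1 (le_refl |Real.log ‖f2 1 t q z‖|)
    have k7 := mul_le_mul_of_nonneg_left k5.1 P.a0.le
    have k8 := mul_le_mul_of_nonneg_left k5.2 P.a0.le
    have hpi := Real.pi_pos
    have hb := P.b0
    have m1 : |(-b * arg (f1 (b / t) t q z) - a * Real.log ‖f2 ((1 - t) / a) t q z‖
        + Real.log ‖f2 1 t q z‖) / Real.pi| ≤ (b * Real.pi
          + a * |Real.log ‖f2 ((1 - t) / a) t q z‖| + |Real.log ‖f2 1 t q z‖|) / Real.pi := by
      rw [abs_div, abs_of_pos hpi]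
      apply div_le_div_of_nonneg_right _ hpi.le
      rw [abs_le]
      constructor <;> linarith [k6.1, k6.2]
    rw [hg]
    have m2 := abs_le.1 m1
    rw [abs_le]
    constructor <;> linarith [m2.1, m2.2]
  -- the threshold
  have hq := P.q0
  set ep := min (1 / 4) (e / (16 * (-q))) with hep
  have hep0 : 0 < ep := lt_min (by norm_num) (div_pos he (by linarith))
  have hep1 : ep ≤ 1 / 4 := min_le_left _ _
  have hep2 : ep * (16 * (-q)) ≤ e := by
    have : ep ≤ e / (16 * (-q)) := min_le_right _ _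
    rwa [le_div_iff₀ (by linarith)] at this
  refine ⟨1 + (-b * Real.log ep + a * Real.pi) / Real.pi, g 0 + 1, fun z hz hM => ?_⟩
  have hpi := Real.pi_pos
  have hz0 : z ≠ 0 := by rintro rfl; simp at hz
  have hf0 : 0 < ‖f1 (b / t) t q z‖ :=
    norm_pos_iff.2 (f1_ne P.del_pos P.htq P.del_sq hz.le hz0)
  have h1 : ‖f1 (b / t) t q z‖ ≤ ep := by
    rw [← Real.log_le_log_iff hf0 hep0]
    rw [phi_re] at hM
    have k1 : arg (f2 ((1 - t) / a) t q z) ≤ Real.pi := arg_le_pi _
    have k2 : 0 ≤ arg (f2 1 t q z) := arg_nonneg_iff.2 (f2_im_nonneg one_pos P.htq hz.le)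
    have k3 := mul_le_mul_of_nonneg_left k1 P.a0.le
    have k4 : (-b * Real.log ep + a * Real.pi) / Real.pi ≤ (-b * Real.log ‖f1 (b / t) t q z‖
      + a * arg (f2 ((1 - t) / a) t q z) - arg (f2 1 t q z)) / Real.pi := by linarith
    rw [div_le_div_iff_of_pos_right hpi] at k4
    have k5 : b * Real.log ‖f1 (b / t) t q z‖ ≤ b * Real.log ep := by linarith
    exact le_of_mul_le_mul_left k5 P.b0
  have h2 : ‖z‖ < e := by
    have k1 := norm_f1_ge P hz.le
    set D := (1 + (b / t) ^ 2) * ‖z‖ with hD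
    have hDz : ‖z‖ ≤ D := by
      rw [hD]
      nlinarith [norm_nonneg z, sq_nonneg (b / t)]
    have k2 : 0 ≤ 2 * (D - 2 * q) := by linarith [norm_nonneg z]
    have k3 := mul_le_mul_of_nonneg_right h1 k2
    have k4 : ep * (2 * D) ≤ 1 / 4 * (2 * D) :=
      mul_le_mul_of_nonneg_right hep1 (by linarith [norm_nonneg z])
    have k5 : ep * (2 * (D - 2 * q)) = ep * (2 * D) + ep * (16 * (-q)) / 4 := by ring
    linarith
  have h3 : g z < g 0 + 1 := hball (by rw [dist_zero_right]; exact h2)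
  exact (hgb z hz).trans h3.le

/-! ### surjectivity -/

theorem subset_image (P : Par a b t q) {V : Set ℂ} (hV : IsPreconnected V)
    (hne : (V ∩ phi a b t q '' UH).Nonempty)
    (hb : ∀ x : ℝ, x ≠ 0 → x ≠ 1 → phi a b t q (x : ℂ) ∉ V) : V ⊆ phi a b t q '' UH := by
  apply hV.subset_of_closure_inter_subset (isOpen_image_phi P) hne
  rintro w ⟨hw, hwD⟩
  obtain ⟨x, hx, hxw⟩ := mem_closure_iff_seq_limit.1 hw
  choose z hz hzx using hx
  have him : Tendsto (fun n => (phi a b t q (z n)).im) atTop (𝓝 w.im) := by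
    have h1 : Tendsto (fun n => (x n).im) atTop (𝓝 w.im) :=
      (continuous_im.tendsto w).comp hxw
    exact h1.congr (fun n => by rw [hzx n])
  -- boundedness
  obtain ⟨R, hR⟩ : ∃ R : ℝ, ∀ z : ℂ, 0 < z.im → R < ‖z‖ → (phi a b t q z).im < w.im - 1 := by
    have h1 := (tendsto_im_inf P).eventually (eventually_lt_atBot (w.im - 1))
    rw [eventually_inf_principal, ← Metric.cobounded_eq_cocompact, ← comap_norm_atTop,
      eventually_comap] at h1
    obtain ⟨R, hR⟩ := (eventually_atTop.1 h1)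
    exact ⟨R, fun z hz hzR => hR ‖z‖ hzR.le z rfl hz.le⟩
  have hbd : ∀ᶠ n in atTop, z n ∈ Metric.closedBall (0 : ℂ) R := by
    have h2 : ∀ᶠ n in atTop, w.im - 1 < (phi a b t q (z n)).im :=
      him.eventually (lt_mem_nhds (by linarith))
    filter_upwards [h2] with n hn
    rw [mem_closedBall_zero_iff]
    by_contra hcon
    push Not at hcon
    linarith [hR (z n) (hz n) hcon]
  obtain ⟨y, -, φ, hφ, hy⟩ := tendsto_subseq_of_frequently_bounded
    Metric.isBounded_closedBall hbd.frequently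
  have hzim : ∀ n, 0 < (z n).im := fun n => hz n
  have hyim : 0 ≤ y.im := by
    have h1 : Tendsto (fun n => (z (φ n)).im) atTop (𝓝 y.im) := (continuous_im.tendsto y).comp hy
    exact ge_of_tendsto h1 (Eventually.of_forall (fun n => (hzim (φ n)).le))
  have hxw' : Tendsto (fun n => phi a b t q (z (φ n))) atTop (𝓝 w) := by
    have h1 : Tendsto (fun n => x (φ n)) atTop (𝓝 w) := hxw.comp hφ.tendsto_atTop
    exact h1.congr (fun n => (hzx (φ n)).symm)
  have him' : Tendsto (fun n => (phi a b t q (z (φ n))).im) atTop (𝓝 w.im) :=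
    (continuous_im.tendsto w).comp hxw'
  have hre' : Tendsto (fun n => (phi a b t q (z (φ n))).re) atTop (𝓝 w.re) :=
    (continuous_re.tendsto w).comp hxw'
  rcases hyim.lt_or_eq with hpos | hzero
  · have h1 : Tendsto (fun n => phi a b t q (z (φ n))) atTop (𝓝 (phi a b t q y)) :=
      (hasStrictDerivAt_phi P hpos).hasDerivAt.continuousAt.tendsto.comp hy
    exact ⟨y, hpos, tendsto_nhds_unique h1 hxw'⟩
  · exfalso
    have hne' : ∀ c : ℂ, c.im = 0 → ∀ n, z (φ n) ≠ c := by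
      intro c hc n h
      have := hzim (φ n)
      rw [h, hc] at this
      exact lt_irrefl _ this
    by_cases hy0 : y = 0
    · have h1 : Tendsto (fun n => z (φ n)) atTop (𝓝[{z : ℂ | 0 ≤ z.im} \ {0}] 0) := by
        rw [tendsto_nhdsWithin_iff]
        exact ⟨by rw [← hy0]; exact hy, Eventually.of_forall (fun n =>
          ⟨(hzim (φ n)).le, fun h => hne' 0 (by simp) n h⟩)⟩
      exact not_tendsto_nhds_of_tendsto_atTop ((tendsto_re_zero P).comp h1) _ hre'
    · by_cases hy1 : y = 1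
      · have h1 : Tendsto (fun n => z (φ n)) atTop (𝓝[{z : ℂ | 0 ≤ z.im} \ {1}] 1) := by
          rw [tendsto_nhdsWithin_iff]
          exact ⟨by rw [← hy1]; exact hy, Eventually.of_forall (fun n =>
            ⟨(hzim (φ n)).le, fun h => hne' 1 (by simp) n h⟩)⟩
        exact not_tendsto_nhds_of_tendsto_atTop ((tendsto_im_one P).comp h1) _ him'
      · have h1 := continuousWithinAt_phi P hyim hy0 hy1
        have h2 : Tendsto (fun n => z (φ n)) atTop (𝓝[{z : ℂ | 0 ≤ z.im}] y) := by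
          rw [tendsto_nhdsWithin_iff]
          exact ⟨hy, Eventually.of_forall (fun n => (hzim (φ n)).le)⟩
        have h3 : phi a b t q y = w := tendsto_nhds_unique (h1.tendsto.comp h2) hxw'
        have h4 : y = ((y.re : ℝ) : ℂ) := Complex.ext (by simp) (by simp [← hzero])
        rw [← h3, h4] at hwD
        exact hb y.re (fun h => hy0 (by rw [h4, h]; simp)) (fun h => hy1 (by rw [h4, h]; simp)) hwD

/-- the values on the real line -/
theorem phi_real_cases (P : Par a b t q) {x : ℝ} (h0 : x ≠ 0) (h1 : x ≠ 1) :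
    ((phi a b t q x).re = 1 ∧ (phi a b t q x).im ≤ 0) ∨
    ((phi a b t q x).im = 0 ∧ 1 ≤ (phi a b t q x).re) ∨
    ((phi a b t q x).im = b ∧ a ≤ (phi a b t q x).re) ∨
    ((phi a b t q x).re = a ∧ b ≤ (phi a b t q x).im) ∨ (phi a b t q x).re = 0 := by
  rcases le_or_gt x q with h | h
  · left
    refine ⟨bre_left P h, ?_⟩
    have k1 := (strictMonoOn_left P).monotoneOn h (le_refl q) h
    have k2 : bim a b t q q = 0 := by rw [bim, phi_q P, one_im]
    rw [k2] at k1
    exact k1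
  · rcases lt_or_gt_of_ne h0 with h' | h'
    · right; left
      refine ⟨bim_mid1 P h.le h', ?_⟩
      have k1 := (strictMonoOn_mid1 P).monotoneOn (a := q) ⟨le_refl q, P.q0⟩ (b := x) ⟨h.le, h'⟩ h.le
      have k2 : bre a b t q q = 1 := by rw [bre, phi_q P, one_re]
      rw [k2] at k1
      exact k1
    · rcases le_or_gt x t with k | k
      · right; right; left
        refine ⟨bim_mid2 P h' k, ?_⟩
        have k1 := (strictAntiOn_mid2 P).antitoneOn (a := x) ⟨h', k⟩ (b := t) ⟨P.t0, le_rfl⟩ k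
        have k2 : bre a b t q t = a := by rw [bre, phi_t P]; simp
        rw [k2] at k1
        exact k1
      · rcases lt_or_gt_of_ne h1 with h2 | h2
        · right; right; right; left
          refine ⟨bre_right1 P k.le h2, ?_⟩
          have k1 := (strictMonoOn_right1 P).monotoneOn (a := t) ⟨le_refl t, P.t1⟩ (b := x)
            ⟨k.le, h2⟩ k.le
          have k2 : bim a b t q t = b := by rw [bim, phi_t P]; simp
          rw [k2] at k1
          exact k1
        · right; right; right; right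
          exact bre_right2 P h2

theorem quad1 (P : Par a b t q) {z : ℂ} (hz : 0 < z.im) :
    ¬ (a < (phi a b t q z).re ∧ b < (phi a b t q z).im) := by
  intro hQ
  set V : Set ℂ := {w | a < w.re ∧ b < w.im} with hV
  have hVc : Convex ℝ V := by
    have e : V = reCLM ⁻¹' (Ioi a) ∩ imCLM ⁻¹' (Ioi b) := by ext w; simp [hV]
    rw [e]
    exact ((convex_Ioi a).is_linear_preimage reCLM.isLinear).inter
      ((convex_Ioi b).is_linear_preimage imCLM.isLinear)
  have hsub : V ⊆ phi a b t q '' UH := by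
    refine subset_image P hVc.isPreconnected ⟨_, hQ, z, hz, rfl⟩ ?_
    rintro x h0 h1 ⟨k1, k2⟩
    have hb := P.b0
    have ha := P.a0
    rcases phi_real_cases P h0 h1 with h | h | h | h | h <;> linarith
  obtain ⟨M, C, hMC⟩ := im_bdd P
  obtain ⟨z', hz', he⟩ := hsub (a := ⟨max M (a + 1), max (C + 1) (b + 1)⟩)
    ⟨lt_of_lt_of_le (lt_add_one a) (le_max_right _ _),
      lt_of_lt_of_le (lt_add_one b) (le_max_right _ _)⟩
  have h1 := hMC z' hz' (by rw [he]; exact le_max_left _ _)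
  rw [he] at h1
  have h2 := le_abs_self (max (C + 1) (b + 1))
  have h3 : C + 1 ≤ max (C + 1) (b + 1) := le_max_left _ _
  simp only at h1
  linarith

theorem quad2 (P : Par a b t q) {z : ℂ} (hz : 0 < z.im) :
    ¬ (1 < (phi a b t q z).re ∧ (phi a b t q z).im < 0) := by
  intro hQ
  set V : Set ℂ := {w | 1 < w.re ∧ w.im < 0} with hV
  have hVc : Convex ℝ V := by
    have e : V = reCLM ⁻¹' (Ioi 1) ∩ imCLM ⁻¹' (Iio 0) := by ext w; simp [hV]
    rw [e]
    exact ((convex_Ioi 1).is_linear_preimage reCLM.isLinear).inter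
      ((convex_Iio 0).is_linear_preimage imCLM.isLinear)
  have hsub : V ⊆ phi a b t q '' UH := by
    refine subset_image P hVc.isPreconnected ⟨_, hQ, z, hz, rfl⟩ ?_
    rintro x h0 h1 ⟨k1, k2⟩
    have hb := P.b0
    have ha := P.a0
    rcases phi_real_cases P h0 h1 with h | h | h | h | h <;> linarith
  obtain ⟨M, C, hMC⟩ := im_bdd P
  obtain ⟨z', hz', he⟩ := hsub (a := ⟨max M (1 + 1), -max (C + 1) 1⟩)
    ⟨lt_of_lt_of_le (lt_add_one 1) (le_max_right _ _), by
      have : (1 : ℝ) ≤ max (C + 1) 1 := le_max_right _ _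
      show -max (C + 1) 1 < 0
      linarith⟩
  have h1 := hMC z' hz' (by rw [he]; exact le_max_left _ _)
  rw [he] at h1
  simp only [abs_neg] at h1
  have h2 := le_abs_self (max (C + 1) 1)
  have h3 : C + 1 ≤ max (C + 1) 1 := le_max_left _ _
  linarith

/-- moving a little from `phi z` in a direction stays in the image -/
theorem image_step (P : Par a b t q) {z : ℂ} (hz : 0 < z.im) (v : ℂ) :
    ∃ s : ℝ, 0 < s ∧ ∃ z' : ℂ, 0 < z'.im ∧ phi a b t q z' = phi a b t q z + s * v := by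
  have h1 : phi a b t q '' UH ∈ 𝓝 (phi a b t q z) := (isOpen_image_phi P).mem_nhds ⟨z, hz, rfl⟩
  have h2 : Tendsto (fun s : ℝ => phi a b t q z + s * v) (𝓝 0) (𝓝 (phi a b t q z)) := by
    have h3 : Continuous fun s : ℝ => phi a b t q z + s * v :=
      continuous_const.add (continuous_ofReal.mul continuous_const)
    have h4 := h3.tendsto 0
    simpa using h4
  have h5 : ∀ᶠ s : ℝ in 𝓝[>] 0, phi a b t q z + s * v ∈ phi a b t q '' UH :=
    (h2.mono_left nhdsWithin_le_nhds).eventually h1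
  obtain ⟨s, hs, hs0⟩ := (h5.and self_mem_nhdsWithin).exists
  obtain ⟨z', hz', he⟩ := hs
  exact ⟨s, hs0, z', hz', he⟩

theorem mapsTo_phi (P : Par a b t q) : MapsTo (phi a b t q) UH (junction a b) := by
  intro z hz
  have hz' : 0 < z.im := hz
  refine ⟨phi_re_pos P hz', ?_, ?_⟩
  · rintro ⟨h1, h2⟩
    obtain ⟨s, hs, z', hz', he⟩ := image_step P hz' (1 + I)
    apply quad1 P hz'
    rw [he]
    constructor
    · simp; linarith
    · simp; linarith
  · rintro ⟨h1, h2⟩
    obtain ⟨s, hs, z', hz', he⟩ := image_step P hz' (1 - I)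
    apply quad2 P hz'
    rw [he]
    constructor
    · simp; linarith
    · simp; linarith

theorem isPreconnected_junction {a b : ℝ} (ha : 0 < a) (hb : 0 < b) :
    IsPreconnected (junction a b) := by
  set c : ℂ := ⟨min a 1 / 2, b / 2⟩ with hc
  have hm : 0 < min a 1 := lt_min ha one_pos
  have hma : min a 1 ≤ a := min_le_left _ _
  have hm1 : min a 1 ≤ 1 := min_le_right _ _
  have h : StarConvex ℝ c (junction a b) := by
    intro w hw s r hs hr hsr
    obtain ⟨h1, h2, h3⟩ := hw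
    have e1 : (s • c + r • w).re = s * (min a 1 / 2) + r * w.re := by simp [hc]
    have e2 : (s • c + r • w).im = s * (b / 2) + r * w.im := by simp [hc]
    have hs' : s = 1 - r := by linarith
    have hr1 : r ≤ 1 := by linarith
    have hr0 : r = 0 ∨ 0 < r := by
      rcases hr.lt_or_eq with h | h
      · exact Or.inr h
      · exact Or.inl h.symm
    refine ⟨?_, ?_, ?_⟩
    · rw [e1]
      rcases hr0 with h | h
      · rw [h, hs', h]; linarith
      · have := mul_pos h h1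
        have := mul_nonneg hs hm.le
        linarith
    · rintro ⟨k1, k2⟩
      rw [e1] at k1
      rw [e2] at k2
      apply h2
      rcases hr0 with h | h
      · rw [hs', h] at k1; linarith
      · constructor
        · by_contra hcon
          push Not at hcon
          have := mul_lt_mul_of_pos_left hcon h
          have := mul_le_mul_of_nonneg_left (by linarith : min a 1 / 2 ≤ a) hs
          rw [hs'] at this k1
          linarith
        · by_contra hcon
          push Not at hcon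
          have := mul_lt_mul_of_pos_left hcon h
          have := mul_le_mul_of_nonneg_left (by linarith : b / 2 ≤ b) hs
          rw [hs'] at this k2
          linarith
    · rintro ⟨k1, k2⟩
      rw [e1] at k1
      rw [e2] at k2
      apply h3
      rcases hr0 with h | h
      · rw [hs', h] at k1; linarith
      · constructor
        · by_contra hcon
          push Not at hcon
          have := mul_lt_mul_of_pos_left hcon h
          have := mul_le_mul_of_nonneg_left (by linarith : min a 1 / 2 ≤ 1) hs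
          rw [hs'] at this k1
          linarith
        · by_contra hcon
          push Not at hcon
          have := mul_pos h hcon
          have := mul_nonneg hs hb.le
          linarith
  exact (h.isPathConnected (by
    refine ⟨by simp [hc]; linarith, ?_, ?_⟩
    · rintro ⟨k, _⟩
      simp [hc] at k
      linarith
    · rintro ⟨_, k⟩
      simp [hc] at k
      linarith)).isConnected.isPreconnected

theorem surjOn_phi (P : Par a b t q) : junction a b ⊆ phi a b t q '' UH := by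
  have hI : (0 : ℝ) < (I : ℂ).im := by simp
  refine subset_image P (isPreconnected_junction P.a0 P.b0)
    ⟨phi a b t q I, mapsTo_phi P hI, I, hI, rfl⟩ ?_
  rintro x h0 h1 ⟨k1, k2, k3⟩
  rcases phi_real_cases P h0 h1 with h | h | h | h | h
  · exact k3 ⟨h.1.ge, h.2⟩
  · exact k3 ⟨h.2, h.1.le⟩
  · exact k2 ⟨h.2, h.1.ge⟩
  · exact k2 ⟨h.1.ge, h.2⟩
  · linarith

theorem bijOn_phi (P : Par a b t q) : BijOn (phi a b t q) UH (junction a b) :=
  ⟨mapsTo_phi P, injOn_phi P, surjOn_phi P⟩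

/-! ### the boundary bijections -/

theorem bim_q (P : Par a b t q) : bim a b t q q = 0 := by rw [bim, phi_q P, one_im]
theorem bre_q (P : Par a b t q) : bre a b t q q = 1 := by rw [bre, phi_q P, one_re]
theorem bim_t (P : Par a b t q) : bim a b t q t = b := by rw [bim, phi_t P]; simp
theorem bre_t (P : Par a b t q) : bre a b t q t = a := by rw [bre, phi_t P]; simp

theorem tendsto_bre_zero (P : Par a b t q) : Tendsto (bre a b t q) (𝓝[≠] 0) atTop := by
  have h1 : Tendsto (fun x : ℝ => (x : ℂ)) (𝓝[≠] 0) (𝓝[{z : ℂ | 0 ≤ z.im} \ {0}] 0) := by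
    rw [tendsto_nhdsWithin_iff]
    refine ⟨?_, ?_⟩
    · have : Tendsto (fun x : ℝ => (x : ℂ)) (𝓝 0) (𝓝 ((0 : ℝ) : ℂ)) := continuous_ofReal.tendsto _
      rw [ofReal_zero] at this
      exact this.mono_left nhdsWithin_le_nhds
    · filter_upwards [self_mem_nhdsWithin] with x hx
      refine ⟨by simp, fun h => hx ?_⟩
      have h2 : (x : ℂ) = 0 := h
      exact_mod_cast h2
  exact (tendsto_re_zero P).comp h1

theorem tendsto_bim_one (P : Par a b t q) : Tendsto (bim a b t q) (𝓝[≠] 1) atTop := by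
  have h1 : Tendsto (fun x : ℝ => (x : ℂ)) (𝓝[≠] 1) (𝓝[{z : ℂ | 0 ≤ z.im} \ {1}] 1) := by
    rw [tendsto_nhdsWithin_iff]
    refine ⟨?_, ?_⟩
    · have : Tendsto (fun x : ℝ => (x : ℂ)) (𝓝 1) (𝓝 ((1 : ℝ) : ℂ)) := continuous_ofReal.tendsto _
      rw [ofReal_one] at this
      exact this.mono_left nhdsWithin_le_nhds
    · filter_upwards [self_mem_nhdsWithin] with x hx
      refine ⟨by simp, fun h => hx ?_⟩
      have h2 : (x : ℂ) = 1 := h
      exact_mod_cast h2
  exact (tendsto_im_one P).comp h1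

theorem tendsto_bim_inf (P : Par a b t q) {l : Filter ℝ}
    (hl : Tendsto (fun x : ℝ => |x|) l atTop) : Tendsto (bim a b t q) l atBot := by
  have h1 : Tendsto (fun x : ℝ => (x : ℂ)) l (cocompact ℂ ⊓ 𝓟 {z | 0 ≤ z.im}) := by
    rw [tendsto_inf, tendsto_principal]
    refine ⟨?_, Eventually.of_forall fun x => by simp⟩
    rw [← Metric.cobounded_eq_cocompact, ← tendsto_norm_atTop_iff_cobounded]
    simpa using hl
  exact (tendsto_im_inf P).comp h1

theorem bijOn_left (P : Par a b t q) : BijOn (bim a b t q) (Iio q) (Iio 0) := by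
  refine ⟨?_, ((strictMonoOn_left P).mono Iio_subset_Iic_self).injOn, ?_⟩
  · intro x hx
    have := (strictMonoOn_left P) (Iio_subset_Iic_self hx) (show q ∈ Iic q from le_refl q) hx
    rw [bim_q P] at this
    exact this
  · apply isPreconnected_Iio.intermediate_value_Iio (l₁ := atBot) (l₂ := 𝓝[<] q)
    · rw [le_principal_iff]; exact Iio_mem_atBot q
    · rw [le_principal_iff]; exact self_mem_nhdsWithin
    · intro x hx
      have hx' : x < q := hx
      exact (hasDerivAt_bim P (by linarith [P.q0])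
        (by linarith [P.q0])).continuousAt.continuousWithinAt
    · exact tendsto_bim_inf P tendsto_abs_atBot_atTop
    · have h1 := (hasDerivAt_bim P P.q0.ne (by linarith [P.q0])).continuousAt.tendsto
      rw [bim_q P] at h1
      exact h1.mono_left nhdsWithin_le_nhds

theorem neBot_Ioo_left {x y : ℝ} (h : x < y) : NeBot (𝓝[Ioo x y] x) := by
  apply mem_closure_iff_nhdsWithin_neBot.1
  rw [closure_Ioo h.ne]
  exact ⟨le_rfl, h.le⟩

theorem neBot_Ioo_right {x y : ℝ} (h : x < y) : NeBot (𝓝[Ioo x y] y) := by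
  apply mem_closure_iff_nhdsWithin_neBot.1
  rw [closure_Ioo h.ne]
  exact ⟨h.le, le_rfl⟩

theorem bijOn_mid1 (P : Par a b t q) : BijOn (bre a b t q) (Ioo q 0) (Ioi 1) := by
  refine ⟨?_, ((strictMonoOn_mid1 P).mono Ioo_subset_Ico_self).injOn, ?_⟩
  · intro x hx
    have := (strictMonoOn_mid1 P) (show q ∈ Ico q 0 from ⟨le_refl q, P.q0⟩) (show x ∈ Ico q 0 from ⟨hx.1.le, hx.2⟩) hx.1
    rw [bre_q P] at this
    exact this
  · have := neBot_Ioo_left P.q0
    have := neBot_Ioo_right P.q0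
    apply isPreconnected_Ioo.intermediate_value_Ioi (l₁ := 𝓝[Ioo q 0] q) (l₂ := 𝓝[Ioo q 0] 0)
    · rw [le_principal_iff]; exact self_mem_nhdsWithin
    · rw [le_principal_iff]; exact self_mem_nhdsWithin
    · intro x hx
      exact (hasDerivAt_bre P (by linarith [hx.2])
        (by linarith [hx.2])).continuousAt.continuousWithinAt
    · have h1 := (hasDerivAt_bre P P.q0.ne (by linarith [P.q0])).continuousAt.tendsto
      rw [bre_q P] at h1
      exact h1.mono_left nhdsWithin_le_nhds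
    · exact (tendsto_bre_zero P).mono_left (nhdsWithin_mono _ (fun x hx => ne_of_lt hx.2))

theorem bijOn_mid2 (P : Par a b t q) : BijOn (bre a b t q) (Ioo 0 t) (Ioi a) := by
  refine ⟨?_, ((strictAntiOn_mid2 P).mono Ioo_subset_Ioc_self).injOn, ?_⟩
  · intro x hx
    have := (strictAntiOn_mid2 P) (show x ∈ Ioc 0 t from ⟨hx.1, hx.2.le⟩) (show t ∈ Ioc 0 t from ⟨P.t0, le_rfl⟩) hx.2
    rw [bre_t P] at this
    exact this
  · have := neBot_Ioo_left P.t0
    have := neBot_Ioo_right P.t0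
    apply isPreconnected_Ioo.intermediate_value_Ioi (l₁ := 𝓝[Ioo 0 t] t) (l₂ := 𝓝[Ioo 0 t] 0)
    · rw [le_principal_iff]; exact self_mem_nhdsWithin
    · rw [le_principal_iff]; exact self_mem_nhdsWithin
    · intro x hx
      exact (hasDerivAt_bre P (by linarith [hx.1])
        (by linarith [hx.2, P.t1])).continuousAt.continuousWithinAt
    · have h1 := (hasDerivAt_bre P P.t0.ne' P.t1.ne).continuousAt.tendsto
      rw [bre_t P] at h1
      exact h1.mono_left nhdsWithin_le_nhds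
    · exact (tendsto_bre_zero P).mono_left (nhdsWithin_mono _ (fun x hx => ne_of_gt hx.1))

theorem bijOn_right1 (P : Par a b t q) : BijOn (bim a b t q) (Ioo t 1) (Ioi b) := by
  refine ⟨?_, ((strictMonoOn_right1 P).mono Ioo_subset_Ico_self).injOn, ?_⟩
  · intro x hx
    have := (strictMonoOn_right1 P) (show t ∈ Ico t 1 from ⟨le_refl t, P.t1⟩) (show x ∈ Ico t 1 from ⟨hx.1.le, hx.2⟩) hx.1
    rw [bim_t P] at this
    exact this
  · have := neBot_Ioo_left P.t1
    have := neBot_Ioo_right P.t1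
    apply isPreconnected_Ioo.intermediate_value_Ioi (l₁ := 𝓝[Ioo t 1] t) (l₂ := 𝓝[Ioo t 1] 1)
    · rw [le_principal_iff]; exact self_mem_nhdsWithin
    · rw [le_principal_iff]; exact self_mem_nhdsWithin
    · intro x hx
      exact (hasDerivAt_bim P (by linarith [hx.1, P.t0])
        (by linarith [hx.2])).continuousAt.continuousWithinAt
    · have h1 := (hasDerivAt_bim P P.t0.ne' P.t1.ne).continuousAt.tendsto
      rw [bim_t P] at h1
      exact h1.mono_left nhdsWithin_le_nhds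
    · exact (tendsto_bim_one P).mono_left (nhdsWithin_mono _ (fun x hx => ne_of_lt hx.2))

theorem bijOn_right2 (P : Par a b t q) : BijOn (bim a b t q) (Ioi 1) univ := by
  refine ⟨mapsTo_univ _ _, (strictAntiOn_right2 P).injOn, ?_⟩
  apply isPreconnected_Ioi.intermediate_value_Iii (l₁ := atTop) (l₂ := 𝓝[>] 1)
  · rw [le_principal_iff]; exact Ioi_mem_atTop 1
  · rw [le_principal_iff]; exact self_mem_nhdsWithin
  · intro x hx
    have hx' : 1 < x := hx
    exact (hasDerivAt_bim P (by linarith) (by linarith)).continuousAt.continuousWithinAt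
  · exact tendsto_bim_inf P tendsto_abs_atTop_atTop
  · exact (tendsto_bim_one P).mono_left (nhdsWithin_mono _ (fun x hx => ne_of_gt hx))

end par

/-! ### the main theorem -/

/-- `φ` is a conformal bijection of the upper half plane onto the T-junction
`{0 < re} ∖ ({a ≤ re, b ≤ im} ∪ {1 ≤ re, im ≤ 0})` (upper leg of width `a`, lower leg of width `1`,
right leg of width `b`), continuous up to the real line except at `0` and `1`, which maps
(with `q = -b²/t`)
* `(-∞, q)` onto the right wall `re = 1, im < 0` of the lower leg (increasing height),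
  `q` to the corner `1`,
* `(q, 0)` onto the lower wall `im = 0, re > 1` of the right leg,
* `(0, t)` onto the upper wall `im = b, re > a` of the right leg, `t` to the corner `a + i b`,
* `(t, 1)` onto the right wall `re = a, im > b` of the upper leg (increasing height),
* `(1, ∞)` onto the left wall `re = 0` (decreasing height);
* the points `0`, `1`, `∞` correspond to the right, the upper and the lower end. -/
structure IsJunctionMap (a b t : ℝ) (φ : ℂ → ℂ) : Prop where
  holomorphic : DifferentiableOn ℂ φ {z | 0 < z.im}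
  bijective : BijOn φ {z | 0 < z.im}
    {w | 0 < w.re ∧ ¬ (a ≤ w.re ∧ b ≤ w.im) ∧ ¬ (1 ≤ w.re ∧ w.im ≤ 0)}
  continuous : ContinuousOn φ ({z | 0 ≤ z.im} \ {0, 1})
  lower_right : ∀ x : ℝ, x < -b ^ 2 / t → (φ x).re = 1
  lower_right_bij : BijOn (fun x : ℝ => (φ x).im) (Iio (-b ^ 2 / t)) (Iio 0)
  lower_right_mono : StrictMonoOn (fun x : ℝ => (φ x).im) (Iic (-b ^ 2 / t))
  lower_corner : φ ((-b ^ 2 / t : ℝ) : ℂ) = 1
  right_lower : ∀ x : ℝ, -b ^ 2 / t < x → x < 0 → (φ x).im = 0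
  right_lower_bij : BijOn (fun x : ℝ => (φ x).re) (Ioo (-b ^ 2 / t) 0) (Ioi 1)
  right_lower_mono : StrictMonoOn (fun x : ℝ => (φ x).re) (Ico (-b ^ 2 / t) 0)
  right_upper : ∀ x : ℝ, 0 < x → x < t → (φ x).im = b
  right_upper_bij : BijOn (fun x : ℝ => (φ x).re) (Ioo 0 t) (Ioi a)
  right_upper_anti : StrictAntiOn (fun x : ℝ => (φ x).re) (Ioc 0 t)
  upper_corner : φ t = a + b * I
  upper_right : ∀ x : ℝ, t < x → x < 1 → (φ x).re = a
  upper_right_bij : BijOn (fun x : ℝ => (φ x).im) (Ioo t 1) (Ioi b)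
  upper_right_mono : StrictMonoOn (fun x : ℝ => (φ x).im) (Ico t 1)
  left_wall : ∀ x : ℝ, 1 < x → (φ x).re = 0
  left_wall_bij : BijOn (fun x : ℝ => (φ x).im) (Ioi 1) univ
  left_wall_anti : StrictAntiOn (fun x : ℝ => (φ x).im) (Ioi 1)
  end_right : Tendsto (fun z : ℂ => (φ z).re) (𝓝[{z | 0 ≤ z.im} \ {0}] 0) atTop
  end_upper : Tendsto (fun z : ℂ => (φ z).im) (𝓝[{z | 0 ≤ z.im} \ {1}] 1) atTop
  end_lower : Tendsto (fun z : ℂ => (φ z).im) (cocompact ℂ ⊓ 𝓟 {z | 0 ≤ z.im}) atBot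

theorem isJunctionMap_phi {a b t : ℝ} (ha : 0 < a) (hb : 0 < b) (h0 : 0 < t) (h1 : t < 1)
    (h : t ^ 2 - (1 - a ^ 2 - b ^ 2) * t = b ^ 2) :
    IsJunctionMap a b t (phi a b t (-b ^ 2 / t)) :=
  have P := par_of_root ha hb h0 h1 h
  { holomorphic := fun _ hz =>
      (hasStrictDerivAt_phi P hz).hasDerivAt.differentiableAt.differentiableWithinAt
    bijective := bijOn_phi P
    continuous := continuousOn_phi P
    lower_right := fun _ hx => bre_left P hx.le
    lower_right_bij := bijOn_left P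
    lower_right_mono := strictMonoOn_left P
    lower_corner := phi_q P
    right_lower := fun _ hx hx0 => bim_mid1 P hx.le hx0
    right_lower_bij := bijOn_mid1 P
    right_lower_mono := strictMonoOn_mid1 P
    right_upper := fun _ hx hxt => bim_mid2 P hx hxt.le
    right_upper_bij := bijOn_mid2 P
    right_upper_anti := strictAntiOn_mid2 P
    upper_corner := phi_t P
    upper_right := fun _ hx hx1 => bre_right1 P hx.le hx1
    upper_right_bij := bijOn_right1 P
    upper_right_mono := strictMonoOn_right1 P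
    left_wall := fun _ hx => bre_right2 P hx
    left_wall_bij := bijOn_right2 P
    left_wall_anti := strictAntiOn_right2 P
    end_right := tendsto_re_zero P
    end_upper := tendsto_im_one P
    end_lower := tendsto_im_inf P }

/-- the root of `t² - (1-a²-b²) t = b²` in `(0,1)` -/
theorem root_mem {a b : ℝ} (ha : 0 < a) (hb : 0 < b) {t : ℝ}
    (ht : t = ((1 - a ^ 2 - b ^ 2) + Real.sqrt ((1 - a ^ 2 - b ^ 2) ^ 2 + 4 * b ^ 2)) / 2) :
    0 < t ∧ t < 1 ∧ t ^ 2 - (1 - a ^ 2 - b ^ 2) * t = b ^ 2 := by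
  set s := 1 - a ^ 2 - b ^ 2 with hs
  have hb2 : 0 < b ^ 2 := by positivity
  have ha2 : 0 < a ^ 2 := by positivity
  have hD : 0 ≤ s ^ 2 + 4 * b ^ 2 := by positivity
  have hr : Real.sqrt (s ^ 2 + 4 * b ^ 2) ^ 2 = s ^ 2 + 4 * b ^ 2 := Real.sq_sqrt hD
  have hr0 : 0 ≤ Real.sqrt (s ^ 2 + 4 * b ^ 2) := Real.sqrt_nonneg _
  have h1 : |s| < Real.sqrt (s ^ 2 + 4 * b ^ 2) := by
    rw [← Real.sqrt_sq_eq_abs]
    exact Real.sqrt_lt_sqrt (sq_nonneg s) (by linarith)
  have h2 := abs_lt.1 h1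
  have h3 : Real.sqrt (s ^ 2 + 4 * b ^ 2) < 2 - s := by
    rw [Real.sqrt_lt' (by linarith)]
    nlinarith
  refine ⟨by rw [ht]; linarith, by rw [ht]; linarith, ?_⟩
  rw [ht]
  linear_combination (1 / 4) * hr

theorem exists_isJunctionMap {a b t : ℝ} (ha : 0 < a) (hb : 0 < b) (h0 : 0 < t) (h1 : t < 1)
    (h : t ^ 2 - (1 - a ^ 2 - b ^ 2) * t = b ^ 2) : ∃ φ : ℂ → ℂ, IsJunctionMap a b t φ :=
  ⟨_, isJunctionMap_phi ha hb h0 h1 h⟩

/-- existence for all `a, b > 0`, the marked corner being at the root `t` -/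
theorem exists_isJunctionMap' {a b : ℝ} (ha : 0 < a) (hb : 0 < b) :
    ∃ φ : ℂ → ℂ, IsJunctionMap a b
      (((1 - a ^ 2 - b ^ 2) + Real.sqrt ((1 - a ^ 2 - b ^ 2) ^ 2 + 4 * b ^ 2)) / 2) φ := by
  obtain ⟨h0, h1, h⟩ := root_mem ha hb rfl
  exact exists_isJunctionMap ha hb h0 h1 h

end

end Pool.Agent.Helper15.J
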